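import Mathlib
import Pool.Agent.H398R2.BV5
import Pool.Agent.H343R2.PV

/-! Sums of the von Mangoldt function twisted by the primitive characters to moduli up to `j`: the
bilinear sums by the large sieve, the type I sums with a long variable as bilinear sums, the other
ones by the inequality of Pólya and Vinogradov. -/

open Finset

namespace Pool.Agent.D0H44.EL

open Pool.Agent.Helper112 Pool.Agent.Helper112.TI Pool.Agent.Helper112.TII
open Pool.Agent.Helper112.BLB Pool.Agent.H398R2.BV Pool.Agent.H410R2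

/-- the large sieve for one point of the separation of variables -/
theorem one_pt (X : ℝ) (x y j : ℕ) (hxy : (x : ℝ) * y ≤ X) (Sx Sy Ca Cb : ℝ) (hx : Real.sqrt x ≤ Sx)
    (hy : Real.sqrt y ≤ Sy) (hCa : 0 ≤ Ca) (hCb : 0 ≤ Cb) (α β : ℕ → ℝ)
    (hα : ∑ b ∈ Icc 1 x, α b ^ 2 ≤ x * Ca ^ 2) (hβ : ∑ c ∈ Icc 1 y, β c ^ 2 ≤ y * Cb ^ 2) :
    ∑ f ∈ Icc 1 j, ((f : ℝ) / (Nat.totient f : ℝ)) * P x y α β f ≤
      6 * (Real.sqrt X + j * (Sx + Sy) + (j : ℝ) ^ 2) * (Real.sqrt X * (Ca * Cb)) := by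
  refine (P_sieve x y α β j).trans ?_
  have h1 : Real.sqrt (∑ b ∈ Icc 1 x, α b ^ 2) ≤ Real.sqrt x * Ca := by
    rw [Real.sqrt_le_left (by positivity), mul_pow, Real.sq_sqrt (by positivity)]
    exact hα
  have h2 : Real.sqrt (∑ c ∈ Icc 1 y, β c ^ 2) ≤ Real.sqrt y * Cb := by
    rw [Real.sqrt_le_left (by positivity), mul_pow, Real.sq_sqrt (by positivity)]
    exact hβ
  have h3 : Real.sqrt x * Real.sqrt y ≤ Real.sqrt X := by
    rw [← Real.sqrt_mul (by positivity)]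
    exact Real.sqrt_le_sqrt hxy
  have h4 : Real.sqrt (∑ b ∈ Icc 1 x, α b ^ 2) * Real.sqrt (∑ c ∈ Icc 1 y, β c ^ 2) ≤
      Real.sqrt X * (Ca * Cb) := by
    calc _ ≤ (Real.sqrt x * Ca) * (Real.sqrt y * Cb) := by gcongr
      _ = (Real.sqrt x * Real.sqrt y) * (Ca * Cb) := by ring
      _ ≤ _ := by gcongr
  have h5 : (Real.sqrt x + j) * (Real.sqrt y + j) ≤ Real.sqrt X + j * (Sx + Sy) + (j : ℝ) ^ 2 := by
    have e : (Real.sqrt x + j) * (Real.sqrt y + j) =
        Real.sqrt x * Real.sqrt y + j * (Real.sqrt x + Real.sqrt y) + (j : ℝ) ^ 2 := by ring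
    rw [e]
    gcongr
  have h6 : 0 ≤ Real.sqrt (∑ b ∈ Icc 1 x, α b ^ 2) * Real.sqrt (∑ c ∈ Icc 1 y, β c ^ 2) := by
    positivity
  have h7 : 0 ≤ (Real.sqrt x + j) * (Real.sqrt y + j) := by positivity
  exact mul_le_mul (mul_le_mul_of_nonneg_left h5 (by norm_num)) h4 h6
    (mul_nonneg (by norm_num) (h7.trans h5))

/-- the bilinear part -/
theorem pt_II (X : ℝ) (hX : 1 ≤ X) (U j : ℕ) (hU : 1 ≤ U) (t : ℝ) (ht1 : 1 ≤ t) (ht2 : t ≤ X) :
    ∑ f ∈ Icc 1 j, ((f : ℝ) / (Nat.totient f : ℝ)) * P ⌊t⌋₊ ⌊X / t⌋₊ (betaV U) (L2 U) f ≤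
      6 * (Real.sqrt X + j * (Real.sqrt (X / U) + Real.sqrt (X / U)) + (j : ℝ) ^ 2) *
        (Real.sqrt X * ((1 + Real.log X) ^ 2 * (1 + Real.log X))) := by
  have hL : 0 ≤ Real.log X := Real.log_nonneg hX
  have ht0 : 0 < t := by linarith
  have hU0 : (0:ℝ) < U := by exact_mod_cast hU
  have hRHS : 0 ≤ 6 * (Real.sqrt X + j * (Real.sqrt (X / U) + Real.sqrt (X / U)) + (j : ℝ) ^ 2) *
        (Real.sqrt X * ((1 + Real.log X) ^ 2 * (1 + Real.log X))) := by positivity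
  rcases Nat.lt_or_ge U ⌊t⌋₊ with hVt | hVt
  swap
  · refine (P_sieve ⌊t⌋₊ ⌊X / t⌋₊ (betaV U) (L2 U) j).trans ?_
    have : ∑ b ∈ Icc 1 ⌊t⌋₊, betaV U b ^ 2 = 0 := by
      apply sum_eq_zero
      intro b hb
      rw [mem_Icc] at hb
      rw [betaV_zero U b (hb.2.trans hVt)]
      simp
    rw [this]
    simpa using hRHS
  rcases Nat.lt_or_ge U ⌊X / t⌋₊ with hUt | hUt
  swap
  · refine (P_sieve ⌊t⌋₊ ⌊X / t⌋₊ (betaV U) (L2 U) j).trans ?_
    have : ∑ c ∈ Icc 1 ⌊X / t⌋₊, L2 U c ^ 2 = 0 := by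
      apply sum_eq_zero
      intro c hc
      rw [mem_Icc] at hc
      have : L2 U c = 0 := by
        unfold L2
        rw [if_neg (by omega)]
      rw [this]
      simp
    rw [this]
    simpa using hRHS
  have hx1 : (⌊t⌋₊ : ℝ) ≤ t := Nat.floor_le (by linarith)
  have hXt : 1 ≤ X / t := by rw [le_div_iff₀ ht0]; linarith
  have hy1 : (⌊X / t⌋₊ : ℝ) ≤ X / t := Nat.floor_le (by linarith)
  have hVr : (U : ℝ) ≤ ⌊t⌋₊ := by exact_mod_cast hVt.le
  have hUr : (U : ℝ) ≤ ⌊X / t⌋₊ := by exact_mod_cast hUt.le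
  have hVt' : (U : ℝ) ≤ t := hVr.trans hx1
  have hUt' : (U : ℝ) ≤ X / t := hUr.trans hy1
  have hy2 : (⌊X / t⌋₊ : ℝ) ≤ X / U := by
    refine hy1.trans ?_
    exact div_le_div_of_nonneg_left (by linarith) hU0 hVt'
  have hx2 : (⌊t⌋₊ : ℝ) ≤ X / U := by
    refine hx1.trans ?_
    rw [le_div_iff₀ hU0]
    rw [le_div_iff₀ ht0] at hUt'
    linarith
  have hxy : (⌊t⌋₊ : ℝ) * (⌊X / t⌋₊ : ℝ) ≤ X := by
    calc (⌊t⌋₊ : ℝ) * (⌊X / t⌋₊ : ℝ) ≤ t * (X / t) :=
          mul_le_mul hx1 hy1 (by positivity) (by linarith)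
      _ = X := by field_simp
  have hx3 : (⌊t⌋₊ : ℝ) ≤ X := hx1.trans ht2
  have hy3 : (⌊X / t⌋₊ : ℝ) ≤ X := hy1.trans (div_le_self (by linarith) ht1)
  apply one_pt X _ _ j hxy _ _ _ _ (Real.sqrt_le_sqrt hx2) (Real.sqrt_le_sqrt hy2) (by positivity)
    (by positivity)
  · refine (sum_betaV_sq U ⌊t⌋₊).trans ?_
    apply mul_le_mul_of_nonneg_left _ (by positivity)
    have h2 := log_natCast_le ⌊t⌋₊ X hX hx3
    have h3 := Real.log_natCast_nonneg ⌊t⌋₊
    calc (1 + Real.log ⌊t⌋₊) ^ 3 ≤ (1 + Real.log X) ^ 3 :=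
          pow_le_pow_left₀ (by linarith) (by linarith) 3
      _ ≤ (1 + Real.log X) ^ 4 := pow_le_pow_right₀ (by linarith) (by norm_num)
      _ = ((1 + Real.log X) ^ 2) ^ 2 := by ring
  · refine (sum_L2_sq U ⌊X / t⌋₊).trans ?_
    apply mul_le_mul_of_nonneg_left _ (by positivity)
    have h2 := log_natCast_le ⌊X / t⌋₊ X hX hy3
    have h3 := Real.log_natCast_nonneg ⌊X / t⌋₊
    exact pow_le_pow_left₀ h3 (by linarith) 2

/-- the constant function one as an arithmetic function -/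
noncomputable def zt : ArithmeticFunction ℝ :=
  ((ArithmeticFunction.zeta : ArithmeticFunction ℕ) : ArithmeticFunction ℝ)

theorem zt_apply {n : ℕ} (hn : n ≠ 0) : zt n = 1 := by
  unfold zt
  rw [ArithmeticFunction.natCoe_apply, ArithmeticFunction.zeta_apply, if_neg hn]
  simp

theorem l1_le (U n : ℕ) : l1 U n ≤ ArithmeticFunction.vonMangoldt n := by
  rw [l1_apply]
  split_ifs
  · exact le_rfl
  · exact ArithmeticFunction.vonMangoldt_nonneg

theorem abs_mu1 (V n : ℕ) : |mu1 V n| ≤ 1 := by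
  rw [mu1_apply]
  split_ifs
  · exact_mod_cast ArithmeticFunction.abs_moebius_le_one
  · simp

/-- the coefficients of the type I sums -/
theorem conv_abs (U V n : ℕ) : |(mu1 V * l1 U) n| ≤ Real.log n := by
  rw [ArithmeticFunction.mul_apply, ← ArithmeticFunction.vonMangoldt_sum,
    ← Nat.sum_divisorsAntidiagonal' (n := n)
      (f := fun _ y => (ArithmeticFunction.vonMangoldt y : ℝ))]
  refine (abs_sum_le_sum_abs _ _).trans (sum_le_sum fun i _ => ?_)
  rw [abs_mul, abs_of_nonneg (l1_nonneg U i.2)]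
  calc |mu1 V i.1| * l1 U i.2 ≤ 1 * l1 U i.2 :=
        mul_le_mul_of_nonneg_right (abs_mu1 V i.1) (l1_nonneg U i.2)
    _ = l1 U i.2 := one_mul _
    _ ≤ _ := l1_le U i.2

/-- the coefficients vanish from `U V` on -/
theorem conv_zero (U V n : ℕ) (h : U * V < n) : (mu1 V * l1 U) n = 0 := by
  rw [ArithmeticFunction.mul_apply]
  apply sum_eq_zero
  intro i hi
  rw [Nat.mem_divisorsAntidiagonal] at hi
  rw [mu1_apply, l1_apply]
  by_cases h1 : i.1 ≤ V
  · by_cases h2 : i.2 ≤ U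
    · exfalso
      have : i.1 * i.2 ≤ V * U := Nat.mul_le_mul h1 h2
      rw [hi.1] at this
      rw [mul_comm] at this
      omega
    · rw [if_neg h2, mul_zero]
  · rw [if_neg h1, zero_mul]

/-- the coefficients with long variable -/
noncomputable def bL (U W c : ℕ) : ℝ := if W < c then (mu1 U * l1 U) c else 0

/-- the coefficients with short variable -/
noncomputable def bS (U W c : ℕ) : ℝ := if W < c then 0 else (mu1 U * l1 U) c

theorem bL_abs (U W c : ℕ) : |bL U W c| ≤ Real.log c := by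
  unfold bL
  split_ifs
  · exact conv_abs U U c
  · simpa using Real.log_natCast_nonneg c

theorem bS_abs (U W c : ℕ) : |bS U W c| ≤ Real.log c := by
  unfold bS
  split_ifs
  · simpa using Real.log_natCast_nonneg c
  · exact conv_abs U U c

theorem bL_zero (U W c : ℕ) (h : U * U < c) : bL U W c = 0 := by
  unfold bL
  split_ifs
  · exact conv_zero U U c h
  · rfl

theorem A_trunc (D y : ℕ) (β : ℕ → ℝ) (hβ : ∀ c, D < c → β c = 0) (f : ℕ)
    (ψ : DirichletCharacter ℂ f) : A y β f ψ = A (min y D) β f ψ := by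
  unfold A
  symm
  apply sum_subset (Icc_subset_Icc_right (min_le_left _ _))
  intro c hc hc'
  rw [mem_Icc] at hc hc'
  have : D < c := by
    by_contra h
    exact hc' ⟨hc.1, le_min hc.2 (by omega)⟩
  rw [hβ c this]
  simp

theorem P_trunc (D x y : ℕ) (α β : ℕ → ℝ) (hβ : ∀ c, D < c → β c = 0) (f : ℕ) :
    P x y α β f = P x (min y D) α β f := by
  unfold P
  apply sum_congr rfl
  intro ψ _
  rw [A_trunc D y β hβ]

theorem zt_sq (x : ℕ) : ∑ b ∈ Icc 1 x, zt b ^ 2 ≤ x * 1 ^ 2 := by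
  have : ∑ b ∈ Icc 1 x, zt b ^ 2 = ∑ b ∈ Icc 1 x, (1 : ℝ) := by
    apply sum_congr rfl
    intro b hb
    rw [mem_Icc] at hb
    rw [zt_apply (by omega)]
    norm_num
  rw [this]
  simp

/-- the type I sums with long variable -/
theorem pt_I (X : ℝ) (hX : 1 ≤ X) (U j : ℕ) (hU : 1 ≤ U) (t : ℝ) (ht1 : 1 ≤ t) (ht2 : t ≤ X) :
    ∑ f ∈ Icc 1 j, ((f : ℝ) / (Nat.totient f : ℝ)) * P ⌊t⌋₊ ⌊X / t⌋₊ (fun n => zt n) (bL U U) f ≤
      6 * (Real.sqrt X + j * (Real.sqrt (X / U) + U) + (j : ℝ) ^ 2) *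
        (Real.sqrt X * (1 * Real.log X)) := by
  have hL : 0 ≤ Real.log X := Real.log_nonneg hX
  have ht0 : 0 < t := by linarith
  have hU0 : (0:ℝ) < U := by exact_mod_cast hU
  have hRHS : 0 ≤ 6 * (Real.sqrt X + j * (Real.sqrt (X / U) + U) + (j : ℝ) ^ 2) *
        (Real.sqrt X * (1 * Real.log X)) := by positivity
  rcases Nat.lt_or_ge U ⌊X / t⌋₊ with hUt | hUt
  swap
  · refine (P_sieve ⌊t⌋₊ ⌊X / t⌋₊ (fun n => zt n) (bL U U) j).trans ?_
    have : ∑ c ∈ Icc 1 ⌊X / t⌋₊, bL U U c ^ 2 = 0 := by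
      apply sum_eq_zero
      intro c hc
      rw [mem_Icc] at hc
      have : bL U U c = 0 := by
        unfold bL
        rw [if_neg (by omega)]
      rw [this]
      simp
    rw [this]
    simpa using hRHS
  have hx1 : (⌊t⌋₊ : ℝ) ≤ t := Nat.floor_le (by linarith)
  have hXt : 1 ≤ X / t := by rw [le_div_iff₀ ht0]; linarith
  have hy1 : (⌊X / t⌋₊ : ℝ) ≤ X / t := Nat.floor_le (by linarith)
  have hUr : (U : ℝ) ≤ ⌊X / t⌋₊ := by exact_mod_cast hUt.le
  have hUt' : (U : ℝ) ≤ X / t := hUr.trans hy1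
  have hx2 : (⌊t⌋₊ : ℝ) ≤ X / U := by
    refine hx1.trans ?_
    rw [le_div_iff₀ hU0]
    rw [le_div_iff₀ ht0] at hUt'
    linarith
  have hxy : (⌊t⌋₊ : ℝ) * (⌊X / t⌋₊ : ℝ) ≤ X := by
    calc (⌊t⌋₊ : ℝ) * (⌊X / t⌋₊ : ℝ) ≤ t * (X / t) :=
          mul_le_mul hx1 hy1 (by positivity) (by linarith)
      _ = X := by field_simp
  have hy3 : (⌊X / t⌋₊ : ℝ) ≤ X := hy1.trans (div_le_self (by linarith) ht1)
  simp_rw [P_trunc (U * U) ⌊t⌋₊ ⌊X / t⌋₊ (fun n => zt n) (bL U U) (bL_zero U U)]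
  have hmin : ((min ⌊X / t⌋₊ (U * U) : ℕ) : ℝ) ≤ ⌊X / t⌋₊ := by exact_mod_cast min_le_left _ _
  apply one_pt X _ _ j _ _ _ _ _ (Real.sqrt_le_sqrt hx2) _ (by norm_num) hL
  · exact zt_sq _
  · calc ∑ c ∈ Icc 1 (min ⌊X / t⌋₊ (U * U)), bL U U c ^ 2 ≤
        ∑ c ∈ Icc 1 (min ⌊X / t⌋₊ (U * U)), Real.log X ^ 2 := by
          apply sum_le_sum
          intro c hc
          rw [mem_Icc] at hc
          rw [← sq_abs]
          apply pow_le_pow_left₀ (abs_nonneg _)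
          refine (bL_abs U U c).trans ?_
          apply log_natCast_le c X hX
          refine le_trans ?_ (hmin.trans hy3)
          exact_mod_cast hc.2
      _ = _ := by simp
  · refine le_trans ?_ hxy
    exact mul_le_mul_of_nonneg_left hmin (by positivity)
  · rw [Real.sqrt_le_left (by positivity)]
    have : ((min ⌊X / t⌋₊ (U * U) : ℕ) : ℝ) ≤ ((U * U : ℕ) : ℝ) := by
      exact_mod_cast min_le_right _ _
    refine this.trans (le_of_eq ?_)
    push_cast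
    ring

/-- sums over characters with a logarithmic weight -/
theorem inner_log' {f : ℕ} (ψ : DirichletCharacter ℂ f) (B : ℝ)
    (hB : ∀ n : ℕ, ‖∑ i ∈ Icc 1 n, ψ (i : ZMod f)‖ ≤ B) (X : ℝ)
    (hX : 1 ≤ X) (c M : ℕ) (hc : 1 ≤ c) (hcX : (c:ℝ) ≤ X) (hM : (M : ℝ) ≤ X) :
    ‖∑ b ∈ Icc 1 M, ψ (b : ZMod f) * ((Real.log (X / ((b * c : ℕ) : ℝ)) : ℝ) : ℂ)‖ ≤
      3 * B * Real.log X := by
  have hL : 0 ≤ Real.log X := Real.log_nonneg hX
  have hc0 : (0:ℝ) < c := by exact_mod_cast hc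
  have hB0 : 0 ≤ B := (norm_nonneg _).trans (hB 0)
  have e : ∑ b ∈ Icc 1 M, ψ (b : ZMod f) * ((Real.log (X / ((b * c : ℕ) : ℝ)) : ℝ) : ℂ) =
      ((Real.log (X / c) : ℝ) : ℂ) * ∑ b ∈ Icc 1 M, ψ (b : ZMod f) -
      ∑ b ∈ Icc 1 M, ψ (b : ZMod f) * ((Real.log b : ℝ) : ℂ) := by
    rw [mul_sum, ← sum_sub_distrib]
    apply sum_congr rfl
    intro b hb
    rw [mem_Icc] at hb
    have hb0 : (0:ℝ) < b := by exact_mod_cast hb.1
    have : Real.log (X / ((b * c : ℕ) : ℝ)) = Real.log (X / c) - Real.log b := by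
      push_cast
      rw [← Real.log_div (by positivity) (by positivity)]
      congr 1
      field_simp
    rw [this]
    push_cast
    ring
  rw [e]
  refine (norm_sub_le _ _).trans ?_
  have h1 := abel_mono (fun i => ψ (i : ZMod f)) B hB (fun n : ℕ => Real.log n)
    mono_log (by simp) M
  have h2 : ‖((Real.log (X / c) : ℝ) : ℂ) * ∑ b ∈ Icc 1 M, ψ (b : ZMod f)‖ ≤ Real.log X * B := by
    rw [norm_mul, Complex.norm_real, Real.norm_eq_abs]
    have h3 : |Real.log (X / c)| ≤ Real.log X := by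
      have hc1 : (1:ℝ) ≤ c := by exact_mod_cast hc
      rw [abs_of_nonneg]
      · apply Real.log_le_log (by positivity)
        exact div_le_self (by linarith) hc1
      · apply Real.log_nonneg
        rwa [le_div_iff₀ hc0, one_mul]
    exact mul_le_mul h3 (hB M) (norm_nonneg _) hL
  have h4 : Real.log M ≤ Real.log X := log_natCast_le M X hX hM
  have h5 : 2 * B * Real.log M ≤ 2 * B * Real.log X :=
    mul_le_mul_of_nonneg_left h4 (by positivity)
  linarith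

theorem inner_log_log' {f : ℕ} (ψ : DirichletCharacter ℂ f) (B : ℝ)
    (hB : ∀ n : ℕ, ‖∑ i ∈ Icc 1 n, ψ (i : ZMod f)‖ ≤ B) (X : ℝ)
    (hX : 1 ≤ X) (c M : ℕ) (hc : 1 ≤ c) (hcX : (c:ℝ) ≤ X) (hM : (M : ℝ) ≤ X) :
    ‖∑ b ∈ Icc 1 M, ψ (b : ZMod f) * ((Real.log b : ℝ) : ℂ) *
      ((Real.log (X / ((b * c : ℕ) : ℝ)) : ℝ) : ℂ)‖ ≤ 4 * B * Real.log X ^ 2 := by
  have hL : 0 ≤ Real.log X := Real.log_nonneg hX
  have hc0 : (0:ℝ) < c := by exact_mod_cast hc
  have hB0 : 0 ≤ B := (norm_nonneg _).trans (hB 0)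
  have e : ∑ b ∈ Icc 1 M, ψ (b : ZMod f) * ((Real.log b : ℝ) : ℂ) *
      ((Real.log (X / ((b * c : ℕ) : ℝ)) : ℝ) : ℂ) =
      ((Real.log (X / c) : ℝ) : ℂ) * ∑ b ∈ Icc 1 M, ψ (b : ZMod f) * ((Real.log b : ℝ) : ℂ) -
      ∑ b ∈ Icc 1 M, ψ (b : ZMod f) * ((Real.log b ^ 2 : ℝ) : ℂ) := by
    rw [mul_sum, ← sum_sub_distrib]
    apply sum_congr rfl
    intro b hb
    rw [mem_Icc] at hb
    have hb0 : (0:ℝ) < b := by exact_mod_cast hb.1
    have : Real.log (X / ((b * c : ℕ) : ℝ)) = Real.log (X / c) - Real.log b := by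
      push_cast
      rw [← Real.log_div (by positivity) (by positivity)]
      congr 1
      field_simp
    rw [this]
    push_cast
    ring
  rw [e]
  refine (norm_sub_le _ _).trans ?_
  have h1 := abel_mono (fun i => ψ (i : ZMod f)) B hB (fun n : ℕ => Real.log n)
    mono_log (by simp) M
  have h1' := abel_mono (fun i => ψ (i : ZMod f)) B hB
    (fun n : ℕ => Real.log n ^ 2) mono_log_sq (by simp) M
  have h4 : Real.log M ≤ Real.log X := log_natCast_le M X hX hM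
  have h4' : Real.log M ^ 2 ≤ Real.log X ^ 2 :=
    pow_le_pow_left₀ (Real.log_natCast_nonneg M) h4 2
  have h3 : |Real.log (X / c)| ≤ Real.log X := by
    have hc1 : (1:ℝ) ≤ c := by exact_mod_cast hc
    rw [abs_of_nonneg]
    · apply Real.log_le_log (by positivity)
      exact div_le_self (by linarith) hc1
    · apply Real.log_nonneg
      rwa [le_div_iff₀ hc0, one_mul]
  have h2 : ‖((Real.log (X / c) : ℝ) : ℂ) *
      ∑ b ∈ Icc 1 M, ψ (b : ZMod f) * ((Real.log b : ℝ) : ℂ)‖ ≤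
      Real.log X * (2 * B * Real.log X) := by
    rw [norm_mul, Complex.norm_real, Real.norm_eq_abs]
    apply mul_le_mul h3 _ (norm_nonneg _) hL
    refine h1.trans ?_
    exact mul_le_mul_of_nonneg_left h4 (by positivity)
  have h5 : 2 * B * Real.log M ^ 2 ≤ 2 * B * Real.log X ^ 2 :=
    mul_le_mul_of_nonneg_left h4' (by positivity)
  have h6 : Real.log X * (2 * B * Real.log X) = 2 * B * Real.log X ^ 2 := by ring
  linarith

theorem log_div_abs (X : ℝ) (n : ℕ) (hn : n ∈ Icc 1 ⌊X⌋₊) (hX : 1 ≤ X) :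
    |Real.log (X / n)| ≤ Real.log X := by
  rw [mem_Icc] at hn
  have hn0 : (1:ℝ) ≤ n := by exact_mod_cast hn.1
  have hnX : (n:ℝ) ≤ X := (Nat.le_floor_iff (by linarith)).mp hn.2
  rw [abs_of_nonneg]
  · apply Real.log_le_log (by positivity)
    exact div_le_self (by linarith) hn0
  · apply Real.log_nonneg
    rwa [le_div_iff₀ (by linarith), one_mul]

/-- first piece -/
theorem piece1 (X : ℝ) (hX : 1 ≤ X) (U f : ℕ) (ψ : DirichletCharacter ℂ f) :
    ‖TL X f ψ (fun n => l1 U n)‖ ≤ U * Real.log X ^ 2 := by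
  have hL : 0 ≤ Real.log X := Real.log_nonneg hX
  unfold TL
  refine (norm_sum_le _ _).trans ?_
  calc ∑ n ∈ Icc 1 ⌊X⌋₊, ‖((l1 U n : ℝ) : ℂ) * ψ (n : ZMod f) *
      ((Real.log (X / n) : ℝ) : ℂ)‖ ≤ ∑ n ∈ Icc 1 ⌊X⌋₊, l1 U n * Real.log X := by
        apply sum_le_sum
        intro n hn
        rw [norm_mul, norm_mul, Complex.norm_real, Complex.norm_real, Real.norm_eq_abs,
          Real.norm_eq_abs, abs_of_nonneg (l1_nonneg U n)]
        have h1 := log_div_abs X n hn hX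
        have h2 := ψ.norm_le_one (n : ZMod f)
        have h3 := l1_nonneg U n
        calc l1 U n * ‖ψ (n : ZMod f)‖ * |Real.log (X / n)| ≤ l1 U n * 1 * Real.log X := by
              gcongr
          _ = _ := by ring
    _ = (∑ n ∈ Icc 1 ⌊X⌋₊, l1 U n) * Real.log X := by rw [sum_mul]
    _ ≤ (U * Real.log X) * Real.log X := mul_le_mul_of_nonneg_right (sum_l1 U X hX) hL
    _ = _ := by ring

/-- second piece -/
theorem piece2 (X : ℝ) (hX : 1 ≤ X) (V f : ℕ) (ψ : DirichletCharacter ℂ f) (B : ℝ)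
    (hB : ∀ n : ℕ, ‖∑ i ∈ Icc 1 n, ψ (i : ZMod f)‖ ≤ B) :
    ‖TL X f ψ (fun n => (ArithmeticFunction.log * mu1 V) n)‖ ≤ V * (4 * B * Real.log X ^ 2) := by
  have hL : 0 ≤ Real.log X := Real.log_nonneg hX
  have hB0 : 0 ≤ B := (norm_nonneg _).trans (hB 0)
  have e2 : TL X f ψ (fun n => (ArithmeticFunction.log * mu1 V) n) =
      ∑ c ∈ Icc 1 ⌊X⌋₊, ((mu1 V c : ℝ) : ℂ) * ψ (c : ZMod f) *
        ∑ b ∈ Icc 1 (⌊X⌋₊ / c), ψ (b : ZMod f) * ((Real.log b : ℝ) : ℂ) *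
          ((Real.log (X / ((b * c : ℕ) : ℝ)) : ℝ) : ℂ) := by
    have h1 : TL X f ψ (fun n => (ArithmeticFunction.log * mu1 V) n) =
        ∑ n ∈ Icc 1 ⌊X⌋₊, ∑ i ∈ n.divisorsAntidiagonal,
        ((mu1 V i.2 : ℝ) : ℂ) * ψ (i.2 : ZMod f) * (ψ (i.1 : ZMod f) *
          ((Real.log i.1 : ℝ) : ℂ) * ((Real.log (X / ((i.1 * i.2 : ℕ) : ℝ)) : ℝ) : ℂ)) := by
      unfold TL
      apply sum_congr rfl
      intro n _
      beta_reduce
      rw [ArithmeticFunction.mul_apply, Complex.ofReal_sum, sum_mul, sum_mul]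
      apply sum_congr rfl
      intro i hi
      rw [Nat.mem_divisorsAntidiagonal] at hi
      rw [← hi.1, ArithmeticFunction.log_apply]
      push_cast
      rw [map_mul]
      ring
    rw [h1, hyperC ⌊X⌋₊ (fun b c => ((mu1 V c : ℝ) : ℂ) * ψ (c : ZMod f) * (ψ (b : ZMod f) *
          ((Real.log b : ℝ) : ℂ) * ((Real.log (X / ((b * c : ℕ) : ℝ)) : ℝ) : ℂ)))]
    apply sum_congr rfl
    intro c _
    rw [mul_sum]
  rw [e2]
  refine (norm_sum_le _ _).trans ?_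
  calc _ ≤ ∑ c ∈ Icc 1 ⌊X⌋₊, |mu1 V c| * (4 * B * Real.log X ^ 2) := by
        apply sum_le_sum
        intro c hc
        rw [mem_Icc] at hc
        have hcX : (c:ℝ) ≤ X := (Nat.le_floor_iff (by linarith)).mp hc.2
        have hMX : ((⌊X⌋₊ / c : ℕ) : ℝ) ≤ X :=
          (Nat.le_floor_iff (by linarith)).mp (Nat.div_le_self _ _)
        rw [norm_mul, norm_mul, Complex.norm_real, Real.norm_eq_abs]
        have h1 := inner_log_log' ψ B hB X hX c (⌊X⌋₊ / c) hc.1 hcX hMX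
        have h2 := ψ.norm_le_one (c : ZMod f)
        have h3 := abs_nonneg (mu1 V c)
        calc _ ≤ |mu1 V c| * 1 * (4 * B * Real.log X ^ 2) := by gcongr
          _ = _ := by ring
    _ = (∑ c ∈ Icc 1 ⌊X⌋₊, |mu1 V c|) * (4 * B * Real.log X ^ 2) := by rw [sum_mul]
    _ ≤ _ := mul_le_mul_of_nonneg_right (sum_mu1 V _) (by positivity)

/-- third piece: short variable -/
theorem piece3 (X : ℝ) (hX : 1 ≤ X) (U W f : ℕ) (ψ : DirichletCharacter ℂ f) (B : ℝ)
    (hB : ∀ n : ℕ, ‖∑ i ∈ Icc 1 n, ψ (i : ZMod f)‖ ≤ B) :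
    ‖TL X f ψ (fun n => ∑ i ∈ n.divisorsAntidiagonal, zt i.1 * bS U W i.2)‖ ≤
      (W * Real.log X) * (3 * B * Real.log X) := by
  have hL : 0 ≤ Real.log X := Real.log_nonneg hX
  have hB0 : 0 ≤ B := (norm_nonneg _).trans (hB 0)
  have e3 : TL X f ψ (fun n => ∑ i ∈ n.divisorsAntidiagonal, zt i.1 * bS U W i.2) =
      ∑ c ∈ Icc 1 ⌊X⌋₊, ((bS U W c : ℝ) : ℂ) * ψ (c : ZMod f) *
        ∑ b ∈ Icc 1 (⌊X⌋₊ / c), ψ (b : ZMod f) *
          ((Real.log (X / ((b * c : ℕ) : ℝ)) : ℝ) : ℂ) := by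
    have h1 : TL X f ψ (fun n => ∑ i ∈ n.divisorsAntidiagonal, zt i.1 * bS U W i.2) =
        ∑ n ∈ Icc 1 ⌊X⌋₊, ∑ i ∈ n.divisorsAntidiagonal,
        ((bS U W i.2 : ℝ) : ℂ) * ψ (i.2 : ZMod f) * (ψ (i.1 : ZMod f) *
          ((Real.log (X / ((i.1 * i.2 : ℕ) : ℝ)) : ℝ) : ℂ)) := by
      unfold TL
      apply sum_congr rfl
      intro n _
      beta_reduce
      rw [Complex.ofReal_sum, sum_mul, sum_mul]
      apply sum_congr rfl
      intro i hi
      rw [Nat.mem_divisorsAntidiagonal] at hi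
      have hi1 : i.1 ≠ 0 := by
        rintro h
        rw [h] at hi
        simp at hi
        omega
      rw [zt_apply hi1, ← hi.1]
      push_cast
      rw [map_mul]
      ring
    rw [h1, hyperC ⌊X⌋₊ (fun b c => ((bS U W c : ℝ) : ℂ) * ψ (c : ZMod f) *
      (ψ (b : ZMod f) * ((Real.log (X / ((b * c : ℕ) : ℝ)) : ℝ) : ℂ)))]
    apply sum_congr rfl
    intro c _
    rw [mul_sum]
  rw [e3]
  have hsum : ∑ c ∈ Icc 1 ⌊X⌋₊, |bS U W c| ≤ W * Real.log X := by
    calc ∑ c ∈ Icc 1 ⌊X⌋₊, |bS U W c| ≤ ∑ c ∈ Icc 1 ⌊X⌋₊, if c ≤ W then Real.log X else 0 := by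
          apply sum_le_sum
          intro c hc
          rw [mem_Icc] at hc
          split_ifs with h
          · refine (bS_abs U W c).trans (log_natCast_le c X hX ?_)
            exact (Nat.le_floor_iff (by linarith)).mp hc.2
          · unfold bS
            rw [if_pos (by omega)]
            simp
      _ = (((Icc 1 ⌊X⌋₊).filter (fun n => n ≤ W)).card : ℝ) * Real.log X := by
          rw [← sum_filter, sum_const, nsmul_eq_mul]
      _ ≤ ((Icc 1 W).card : ℝ) * Real.log X := by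
          apply mul_le_mul_of_nonneg_right _ hL
          norm_cast
          apply card_le_card
          intro n hn
          rw [mem_filter, mem_Icc] at hn
          rw [mem_Icc]
          exact ⟨hn.1.1, hn.2⟩
      _ = _ := by simp
  refine (norm_sum_le _ _).trans ?_
  calc _ ≤ ∑ c ∈ Icc 1 ⌊X⌋₊, |bS U W c| * (3 * B * Real.log X) := by
        apply sum_le_sum
        intro c hc
        rw [mem_Icc] at hc
        have hcX : (c:ℝ) ≤ X := (Nat.le_floor_iff (by linarith)).mp hc.2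
        have hMX : ((⌊X⌋₊ / c : ℕ) : ℝ) ≤ X :=
          (Nat.le_floor_iff (by linarith)).mp (Nat.div_le_self _ _)
        rw [norm_mul, norm_mul, Complex.norm_real, Real.norm_eq_abs]
        have h1 := inner_log' ψ B hB X hX c (⌊X⌋₊ / c) hc.1 hcX hMX
        have h2 := ψ.norm_le_one (c : ZMod f)
        have h3 := abs_nonneg (bS U W c)
        calc _ ≤ |bS U W c| * 1 * (3 * B * Real.log X) := by gcongr
          _ = _ := by ring
    _ = (∑ c ∈ Icc 1 ⌊X⌋₊, |bS U W c|) * (3 * B * Real.log X) := by rw [sum_mul]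
    _ ≤ _ := mul_le_mul_of_nonneg_right hsum (by positivity)

/-- the decomposition of the von Mangoldt function -/
theorem psiLog_dec (X : ℝ) (U f : ℕ) (ψ : DirichletCharacter ℂ f) :
    psiLog X f ψ = TL X f ψ (fun n => l1 U n) +
      TL X f ψ (fun n => (ArithmeticFunction.log * mu1 U) n) -
      (TL X f ψ (fun n => ∑ i ∈ n.divisorsAntidiagonal, zt i.1 * bS U U i.2) +
        TL X f ψ (fun n => ∑ i ∈ n.divisorsAntidiagonal, zt i.1 * bL U U i.2)) +
      TL X f ψ (LamII U U) := by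
  have h1 : ∀ n : ℕ, ArithmeticFunction.vonMangoldt n = l1 U n +
      (ArithmeticFunction.log * mu1 U) n -
      (∑ i ∈ n.divisorsAntidiagonal, zt i.1 * bS U U i.2 +
        ∑ i ∈ n.divisorsAntidiagonal, zt i.1 * bL U U i.2) + LamII U U n := by
    intro n
    have h2 := vaughan U U n
    have h3 : (((ArithmeticFunction.zeta : ArithmeticFunction ℕ) : ArithmeticFunction ℝ) *
        (mu1 U * l1 U)) n = ∑ i ∈ n.divisorsAntidiagonal, zt i.1 * bS U U i.2 +
        ∑ i ∈ n.divisorsAntidiagonal, zt i.1 * bL U U i.2 := by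
      rw [ArithmeticFunction.mul_apply, ← sum_add_distrib]
      apply sum_congr rfl
      intro i _
      unfold bS bL zt
      split_ifs <;> ring
    rw [h3] at h2
    linarith
  rw [← TL_add, ← TL_add, ← TL_sub]
  have h4 : TL X f ψ (fun n => l1 U n + (ArithmeticFunction.log * mu1 U) n -
      (∑ i ∈ n.divisorsAntidiagonal, zt i.1 * bS U U i.2 +
        ∑ i ∈ n.divisorsAntidiagonal, zt i.1 * bL U U i.2)) + TL X f ψ (LamII U U) =
      TL X f ψ (fun n => (l1 U n + (ArithmeticFunction.log * mu1 U) n -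
      (∑ i ∈ n.divisorsAntidiagonal, zt i.1 * bS U U i.2 +
        ∑ i ∈ n.divisorsAntidiagonal, zt i.1 * bL U U i.2)) + LamII U U n) :=
    (TL_add X f ψ _ _).symm
  rw [h4]
  unfold psiLog TL
  apply sum_congr rfl
  intro n _
  beta_reduce
  rw [← h1 n]

/-- the sum over all the primitive characters to moduli up to `j` -/
theorem eng (X : ℝ) (hX : 1 ≤ X) (U j : ℕ) (hU : 1 ≤ U) (hj : 1 ≤ j) :
    ∑ f ∈ Icc 2 j, ∑ ψ ∈ Prim f, ‖psiLog X f ψ‖ ≤
      (j : ℝ) ^ 2 * (8 * U * (Real.sqrt j * (1 + Real.log j)) * Real.log X ^ 2) +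
      12 * (Real.sqrt X + j * (2 * Real.sqrt (X / U) + U) + (j : ℝ) ^ 2) *
        (Real.sqrt X * (1 + Real.log X) ^ 4) := by
  classical
  have hL : 0 ≤ Real.log X := Real.log_nonneg hX
  have hU1 : (1 : ℝ) ≤ U := by exact_mod_cast hU
  have hj1 : (1 : ℝ) ≤ j := by exact_mod_cast hj
  have hlj : 0 ≤ Real.log j := Real.log_natCast_nonneg j
  set Bj : ℝ := Real.sqrt j * (1 + Real.log j) with hBj
  have hBj1 : 1 ≤ Bj := by
    have h1 : 1 ≤ Real.sqrt j := by rw [Real.one_le_sqrt]; exact hj1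
    rw [hBj]
    nlinarith
  -- pointwise
  have hpt : ∀ f ∈ Icc 2 j, ∀ ψ ∈ Prim f, ‖psiLog X f ψ‖ ≤ 8 * U * Bj * Real.log X ^ 2 +
      (‖TL X f ψ (fun n => ∑ i ∈ n.divisorsAntidiagonal, zt i.1 * bL U U i.2)‖ +
        ‖TL X f ψ (LamII U U)‖) := by
    intro f hf ψ hψ
    rw [mem_Icc] at hf
    have hprim : ψ.IsPrimitive := by
      unfold Prim at hψ
      rw [mem_filter] at hψ
      exact hψ.2
    have hB : ∀ n : ℕ, ‖∑ i ∈ Icc 1 n, ψ (i : ZMod f)‖ ≤ Bj := by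
      intro n
      refine (H343.PVaux.PV_plain f n hf.1 ψ hprim).trans ?_
      have hfj : (f : ℝ) ≤ j := by exact_mod_cast hf.2
      have hf0 : (0 : ℝ) < f := by exact_mod_cast (by omega : 0 < f)
      have hlf : Real.log f ≤ Real.log j := Real.log_le_log hf0 hfj
      have hlf0 : 0 ≤ Real.log f := Real.log_natCast_nonneg f
      rw [hBj]
      gcongr
    have p1 := piece1 X hX U f ψ
    have p2 := piece2 X hX U f ψ Bj hB
    have p3 := piece3 X hX U U f ψ Bj hB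
    rw [psiLog_dec X U f ψ]
    set a1 := TL X f ψ (fun n => l1 U n)
    set a2 := TL X f ψ (fun n => (ArithmeticFunction.log * mu1 U) n)
    set a3 := TL X f ψ (fun n => ∑ i ∈ n.divisorsAntidiagonal, zt i.1 * bS U U i.2)
    set a4 := TL X f ψ (fun n => ∑ i ∈ n.divisorsAntidiagonal, zt i.1 * bL U U i.2)
    set a5 := TL X f ψ (LamII U U)
    have t1 : ‖a1 + a2 - (a3 + a4) + a5‖ ≤ ‖a1‖ + ‖a2‖ + (‖a3‖ + ‖a4‖) + ‖a5‖ := by
      refine (norm_add_le _ _).trans ?_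
      gcongr
      refine (norm_sub_le _ _).trans ?_
      gcongr
      · exact norm_add_le _ _
      · exact norm_add_le _ _
    have q1 : (U : ℝ) * Real.log X ^ 2 ≤ U * Bj * Real.log X ^ 2 := by
      have : (U : ℝ) * 1 ≤ U * Bj := mul_le_mul_of_nonneg_left hBj1 (by linarith)
      have h2 : 0 ≤ Real.log X ^ 2 := by positivity
      nlinarith
    have q2 : (U : ℝ) * (4 * Bj * Real.log X ^ 2) = 4 * (U * Bj * Real.log X ^ 2) := by ring
    have q3 : (U : ℝ) * Real.log X * (3 * Bj * Real.log X) = 3 * (U * Bj * Real.log X ^ 2) := by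
      ring
    have q4 : 8 * U * Bj * Real.log X ^ 2 = 8 * (U * Bj * Real.log X ^ 2) := by ring
    rw [q4]
    linarith
  have h1 : ∑ f ∈ Icc 2 j, ∑ ψ ∈ Prim f, ‖psiLog X f ψ‖ ≤
      ∑ f ∈ Icc 2 j, ∑ ψ ∈ Prim f, (8 * U * Bj * Real.log X ^ 2) +
      (∑ f ∈ Icc 2 j, ∑ ψ ∈ Prim f,
        ‖TL X f ψ (fun n => ∑ i ∈ n.divisorsAntidiagonal, zt i.1 * bL U U i.2)‖ +
      ∑ f ∈ Icc 2 j, ∑ ψ ∈ Prim f, ‖TL X f ψ (LamII U U)‖) := by
    simp_rw [← sum_add_distrib]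
    exact sum_le_sum fun f hf => sum_le_sum fun ψ hψ => hpt f hf ψ hψ
  -- the trivial part
  have h2 : ∑ f ∈ Icc 2 j, ∑ ψ ∈ Prim f, (8 * U * Bj * Real.log X ^ 2) ≤
      (j : ℝ) ^ 2 * (8 * U * Bj * Real.log X ^ 2) := by
    calc ∑ f ∈ Icc 2 j, ∑ ψ ∈ Prim f, (8 * U * Bj * Real.log X ^ 2) =
        ∑ f ∈ Icc 2 j, ((Prim f).card : ℝ) * (8 * U * Bj * Real.log X ^ 2) := by
          apply sum_congr rfl
          intro f _
          rw [sum_const, nsmul_eq_mul]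
      _ ≤ ∑ f ∈ Icc 2 j, (j : ℝ) * (8 * U * Bj * Real.log X ^ 2) := by
          apply sum_le_sum
          intro f hf
          rw [mem_Icc] at hf
          have h3 : ((Prim f).card : ℝ) ≤ j := by
            refine (card_prim_le (by omega)).trans ?_
            exact_mod_cast (Nat.totient_le f).trans hf.2
          gcongr
      _ = ((Icc 2 j).card : ℝ) * (j * (8 * U * Bj * Real.log X ^ 2)) := by
          rw [sum_const, nsmul_eq_mul]
      _ ≤ (j : ℝ) * (j * (8 * U * Bj * Real.log X ^ 2)) := by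
          gcongr
          rw [Nat.card_Icc]
          omega
      _ = _ := by ring
  -- the large sieve parts
  have hext : ∀ G : (f : ℕ) → DirichletCharacter ℂ f → ℝ, (∀ f ψ, 0 ≤ G f ψ) →
      ∑ f ∈ Icc 2 j, ∑ ψ ∈ Prim f, G f ψ ≤
      ∑ f ∈ Icc 1 j, ((f : ℝ) / (Nat.totient f : ℝ)) *
        ∑ ψ ∈ (univ : Finset (DirichletCharacter ℂ f)).filter (fun ψ => ψ.IsPrimitive), G f ψ := by
    intro G hG
    refine le_trans ?_ (sum_le_sum_of_subset_of_nonneg (Icc_subset_Icc_left (by norm_num : (1 : ℕ) ≤ 2))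
      (fun f _ _ => mul_nonneg (by positivity) (sum_nonneg fun ψ _ => hG f ψ)))
    apply sum_le_sum
    intro f hf
    rw [mem_Icc] at hf
    have h3 : 0 ≤ ∑ ψ ∈ (univ : Finset (DirichletCharacter ℂ f)).filter
        (fun ψ => ψ.IsPrimitive), G f ψ := sum_nonneg fun ψ _ => hG f ψ
    have h4 : (1 : ℝ) ≤ (f : ℝ) / (Nat.totient f : ℝ) := by
      rw [one_le_div (by exact_mod_cast Nat.totient_pos.2 (by omega))]
      exact_mod_cast Nat.totient_le f
    calc ∑ ψ ∈ Prim f, G f ψ = 1 * ∑ ψ ∈ (univ : Finset (DirichletCharacter ℂ f)).filter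
          (fun ψ => ψ.IsPrimitive), G f ψ := by rw [one_mul]; rfl
      _ ≤ _ := mul_le_mul_of_nonneg_right h4 h3
  have h5 := (hext (fun f ψ => ‖TL X f ψ (LamII U U)‖) (fun _ _ => norm_nonneg _)).trans
    (sum_TL_le X hX (Icc 1 j) (fun f => (f : ℝ) / (Nat.totient f : ℝ)) (fun f => by positivity)
      (betaV U) (L2 U) _ (fun t ht1 ht2 => pt_II X hX U j hU t ht1 ht2))
  have h6 := (hext (fun f ψ =>
      ‖TL X f ψ (fun n => ∑ i ∈ n.divisorsAntidiagonal, zt i.1 * bL U U i.2)‖)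
      (fun _ _ => norm_nonneg _)).trans
    (sum_TL_le X hX (Icc 1 j) (fun f => (f : ℝ) / (Nat.totient f : ℝ)) (fun f => by positivity)
      (fun n => zt n) (bL U U) _ (fun t ht1 ht2 => pt_I X hX U j hU t ht1 ht2))
  refine h1.trans (add_le_add h2 ((add_le_add h6 h5).trans ?_))
  set S := Real.sqrt X with hS
  set R := Real.sqrt (X / U) with hR
  have hS0 : 0 ≤ S := Real.sqrt_nonneg _
  have hR0 : 0 ≤ R := Real.sqrt_nonneg _
  set L := Real.log X with hLdef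
  have hK : 0 ≤ S + j * (2 * R + U) + (j : ℝ) ^ 2 := by positivity
  have k1 : 6 * (S + j * (R + U) + (j : ℝ) ^ 2) * (S * (1 * L)) * L ≤
      6 * (S + j * (2 * R + U) + (j : ℝ) ^ 2) * (S * (1 + L) ^ 4) := by
    have e1 : S + j * (R + U) + (j : ℝ) ^ 2 ≤ S + j * (2 * R + U) + (j : ℝ) ^ 2 := by
      have : (j : ℝ) * (R + U) ≤ j * (2 * R + U) :=
        mul_le_mul_of_nonneg_left (by linarith) (by positivity)
      linarith
    have e2 : L * L ≤ (1 + L) ^ 4 := by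
      calc L * L ≤ (1 + L) * (1 + L) := mul_self_le_mul_self hL (by linarith)
        _ = (1 + L) ^ 2 := by ring
        _ ≤ (1 + L) ^ 4 := pow_le_pow_right₀ (by linarith) (by norm_num)
    calc 6 * (S + j * (R + U) + (j : ℝ) ^ 2) * (S * (1 * L)) * L =
        6 * (S + j * (R + U) + (j : ℝ) ^ 2) * (S * (L * L)) := by ring
      _ ≤ _ := mul_le_mul (mul_le_mul_of_nonneg_left e1 (by norm_num))
          (mul_le_mul_of_nonneg_left e2 hS0) (by positivity) (by positivity)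
  have k2 : 6 * (S + j * (R + R) + (j : ℝ) ^ 2) * (S * ((1 + L) ^ 2 * (1 + L))) * L ≤
      6 * (S + j * (2 * R + U) + (j : ℝ) ^ 2) * (S * (1 + L) ^ 4) := by
    have e1 : S + j * (R + R) + (j : ℝ) ^ 2 ≤ S + j * (2 * R + U) + (j : ℝ) ^ 2 := by
      have : (j : ℝ) * (R + R) ≤ j * (2 * R + U) :=
        mul_le_mul_of_nonneg_left (by linarith) (by positivity)
      linarith
    have e2 : (1 + L) ^ 2 * (1 + L) * L ≤ (1 + L) ^ 4 := by
      calc (1 + L) ^ 2 * (1 + L) * L ≤ (1 + L) ^ 2 * (1 + L) * (1 + L) :=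
            mul_le_mul_of_nonneg_left (by linarith) (by positivity)
        _ = (1 + L) ^ 4 := by ring
    calc 6 * (S + j * (R + R) + (j : ℝ) ^ 2) * (S * ((1 + L) ^ 2 * (1 + L))) * L =
        6 * (S + j * (R + R) + (j : ℝ) ^ 2) * (S * ((1 + L) ^ 2 * (1 + L) * L)) := by ring
      _ ≤ _ := mul_le_mul (mul_le_mul_of_nonneg_left e1 (by norm_num))
          (mul_le_mul_of_nonneg_left e2 hS0) (by positivity) (by positivity)
  linarith

end Pool.Agent.D0H44.EL
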