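import Mathlib
import Pool.Agent.D0H44.EL.Eng
import Pool.Agent.H398R2.BA1
import Pool.Agent.H343R2.Gauss

/-! Cesàro weights, and the exponential sums `∑ Λ(n) e(n / q) (Y - n)` at the points `1 / q`. -/

open Finset MeasureTheory

namespace Pool.Agent.D0H44.EL

open Pool.Agent.H398R2.BV Pool.Agent.H410R2

/-- the sum over a character with Cesàro weight -/
noncomputable def CX (Y : ℝ) (f : ℕ) (ψ : DirichletCharacter ℂ f) : ℂ :=
  ∑ n ∈ Icc 1 ⌊Y⌋₊, ((ArithmeticFunction.vonMangoldt n : ℝ) : ℂ) * ψ (n : ZMod f) *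
    ((Y - n : ℝ) : ℂ)

/-- the continuous form of `psiLog` -/
noncomputable def PG (N : ℕ) (f : ℕ) (ψ : DirichletCharacter ℂ f) (y : ℝ) : ℂ :=
  ∑ n ∈ Icc 1 N, ((ArithmeticFunction.vonMangoldt n : ℝ) : ℂ) * ψ (n : ZMod f) *
    ((max (Real.log (y / n)) 0 : ℝ) : ℂ)

theorem PG_eq (N f : ℕ) (ψ : DirichletCharacter ℂ f) (y : ℝ) (hy : 0 < y) (hN : ⌊y⌋₊ ≤ N) :
    psiLog y f ψ = PG N f ψ y := by
  unfold psiLog PG
  rw [← sum_subset (Icc_subset_Icc_right hN)]
  · apply sum_congr rfl
    intro n hn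
    rw [mem_Icc] at hn
    congr 2
    rw [max_eq_left]
    apply Real.log_nonneg
    have hn0 : (0 : ℝ) < n := by exact_mod_cast (by omega : 0 < n)
    rw [le_div_iff₀ hn0, one_mul]
    exact (Nat.le_floor_iff hy.le).1 hn.2
  · intro n hn hn'
    rw [mem_Icc] at hn hn'
    have h1 : ¬ n ≤ ⌊y⌋₊ := fun h => hn' ⟨hn.1, h⟩
    have hn0 : (0 : ℝ) < n := by exact_mod_cast (by omega : 0 < n)
    have h2 : y < n := by
      rw [Nat.le_floor_iff hy.le] at h1
      linarith
    have h3 : Real.log (y / n) ≤ 0 := by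
      apply Real.log_nonpos (by positivity)
      rw [div_le_one hn0]
      exact h2.le
    rw [max_eq_right h3]
    simp

theorem mx_cont (n : ℕ) (hn : 1 ≤ n) : ContinuousOn (fun y : ℝ => max (Real.log (y / n)) 0)
    (Set.Ici 1) := by
  have hn0 : (0 : ℝ) < n := by exact_mod_cast (by omega : 0 < n)
  apply ContinuousOn.sup _ continuousOn_const
  apply ContinuousOn.log
  · exact (continuous_id.div_const _).continuousOn
  · intro x hx
    have : (1 : ℝ) ≤ x := hx
    positivity

theorem PG_cont (N f : ℕ) (ψ : DirichletCharacter ℂ f) : ContinuousOn (PG N f ψ) (Set.Ici 1) := by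
  unfold PG
  apply continuousOn_finsetSum
  intro n hn
  rw [mem_Icc] at hn
  apply ContinuousOn.mul continuousOn_const
  exact Complex.continuous_ofReal.comp_continuousOn (mx_cont n hn.1)

theorem mx_int (n : ℕ) (hn : 1 ≤ n) (Y : ℝ) (hY : (n : ℝ) ≤ Y) :
    ∫ y in (1 : ℝ)..Y, max (Real.log (y / n)) 0 = Y * Real.log (Y / n) - (Y - n) := by
  have hn1 : (1 : ℝ) ≤ n := by exact_mod_cast hn
  have hn0 : (0 : ℝ) < n := by linarith
  have hY1 : 1 ≤ Y := hn1.trans hY
  have hi : ∀ a b : ℝ, 1 ≤ a → 1 ≤ b → IntervalIntegrable (fun y : ℝ => max (Real.log (y / n)) 0)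
      volume a b := by
    intro a b ha hb
    apply ContinuousOn.intervalIntegrable
    apply (mx_cont n hn).mono
    intro x hx
    rw [Set.mem_uIcc] at hx
    rcases hx with h | h
    · exact ha.trans h.1
    · exact hb.trans h.1
  rw [← intervalIntegral.integral_add_adjacent_intervals (hi 1 n le_rfl hn1) (hi n Y hn1 hY1)]
  have h1 : ∫ y in (1 : ℝ)..n, max (Real.log (y / n)) 0 = 0 := by
    have : ∫ y in (1 : ℝ)..n, max (Real.log (y / n)) 0 = ∫ y in (1 : ℝ)..n, (0 : ℝ) := by
      apply intervalIntegral.integral_congr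
      intro y hy
      rw [Set.uIcc_of_le hn1, Set.mem_Icc] at hy
      simp only
      apply max_eq_right
      apply Real.log_nonpos
      · have : 0 ≤ y := by linarith [hy.1]
        positivity
      · rw [div_le_one hn0]
        exact hy.2
    rw [this]
    simp
  have h2 : ∫ y in (n : ℝ)..Y, max (Real.log (y / n)) 0 =
      ∫ y in (n : ℝ)..Y, (Real.log y - Real.log n) := by
    apply intervalIntegral.integral_congr
    intro y hy
    rw [Set.uIcc_of_le hY, Set.mem_Icc] at hy
    simp only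
    have hy0 : 0 < y := by linarith [hy.1]
    rw [Real.log_div hy0.ne' hn0.ne']
    apply max_eq_left
    have := Real.log_le_log hn0 hy.1
    linarith
  rw [h1, h2, intervalIntegral.integral_sub, integral_log, intervalIntegral.integral_const,
    Real.log_div (by linarith) hn0.ne', smul_eq_mul]
  · ring
  · apply ContinuousOn.intervalIntegrable
    apply ContinuousOn.log continuousOn_id
    intro x hx
    rw [Set.uIcc_of_le hY, Set.mem_Icc] at hx
    simp only [id]
    have : 0 < x := by linarith [hx.1]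
    exact this.ne'
  · simp

/-- Cesàro weights from logarithmic weights -/
theorem CX_eq (Y : ℝ) (hY : 1 ≤ Y) (f : ℕ) (ψ : DirichletCharacter ℂ f) :
    CX Y f ψ = (Y : ℂ) * psiLog Y f ψ - ∫ y in (1 : ℝ)..Y, PG ⌊Y⌋₊ f ψ y := by
  have hY0 : 0 < Y := by linarith
  have h1 : ∫ y in (1 : ℝ)..Y, PG ⌊Y⌋₊ f ψ y = ∑ n ∈ Icc 1 ⌊Y⌋₊,
      ((ArithmeticFunction.vonMangoldt n : ℝ) : ℂ) * ψ (n : ZMod f) *
        ((Y * Real.log (Y / n) - (Y - n) : ℝ) : ℂ) := by
    unfold PG
    rw [intervalIntegral.integral_finsetSum]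
    · apply sum_congr rfl
      intro n hn
      rw [mem_Icc] at hn
      have hnY : (n : ℝ) ≤ Y := (Nat.le_floor_iff hY0.le).1 hn.2
      rw [intervalIntegral.integral_const_mul]
      congr 1
      rw [← mx_int n hn.1 Y hnY]
      exact intervalIntegral.integral_ofReal
    · intro n hn
      rw [mem_Icc] at hn
      apply ContinuousOn.intervalIntegrable
      apply ContinuousOn.mul continuousOn_const
      apply Complex.continuous_ofReal.comp_continuousOn
      apply (mx_cont n hn.1).mono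
      intro x hx
      rw [Set.uIcc_of_le hY] at hx
      exact hx.1
  rw [h1]
  unfold CX psiLog
  rw [mul_sum, ← sum_sub_distrib]
  apply sum_congr rfl
  intro n _
  push_cast
  ring

/-- sums over families -/
theorem CX_sum {ι : Type*} (S : Finset ι) (f : ι → ℕ) (ψ : (i : ι) → DirichletCharacter ℂ (f i))
    (Y B : ℝ) (hY : 1 ≤ Y)
    (hB : ∀ y : ℝ, 1 ≤ y → y ≤ Y → ∑ i ∈ S, ‖psiLog y (f i) (ψ i)‖ ≤ B) :
    ∑ i ∈ S, ‖CX Y (f i) (ψ i)‖ ≤ 2 * Y * B := by
  have hY0 : 0 < Y := by linarith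
  have hB0 : 0 ≤ B := (sum_nonneg fun i _ => norm_nonneg _).trans (hB 1 le_rfl hY)
  have hint : ∀ i, IntervalIntegrable (fun y => ‖PG ⌊Y⌋₊ (f i) (ψ i) y‖) volume 1 Y := by
    intro i
    apply ContinuousOn.intervalIntegrable
    apply ContinuousOn.norm
    apply (PG_cont _ _ _).mono
    intro x hx
    rw [Set.uIcc_of_le hY] at hx
    exact hx.1
  have h1 : ∀ i ∈ S, ‖CX Y (f i) (ψ i)‖ ≤ Y * ‖psiLog Y (f i) (ψ i)‖ +
      ∫ y in (1 : ℝ)..Y, ‖PG ⌊Y⌋₊ (f i) (ψ i) y‖ := by
    intro i _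
    rw [CX_eq Y hY]
    refine (norm_sub_le _ _).trans ?_
    rw [norm_mul, Complex.norm_real, Real.norm_of_nonneg hY0.le]
    gcongr
    exact intervalIntegral.norm_integral_le_integral_norm hY
  refine (sum_le_sum h1).trans ?_
  rw [sum_add_distrib, ← mul_sum, ← intervalIntegral.integral_finsetSum (fun i _ => hint i)]
  have h2 : ∫ y in (1 : ℝ)..Y, ∑ i ∈ S, ‖PG ⌊Y⌋₊ (f i) (ψ i) y‖ ≤ ∫ _y in (1 : ℝ)..Y, B := by
    apply intervalIntegral.integral_mono_on hY
    · apply ContinuousOn.intervalIntegrable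
      apply continuousOn_finsetSum
      intro i _
      apply ContinuousOn.norm
      apply (PG_cont _ _ _).mono
      intro x hx
      rw [Set.uIcc_of_le hY] at hx
      exact hx.1
    · simp
    · intro y hy
      rw [Set.mem_Icc] at hy
      refine le_trans (le_of_eq ?_) (hB y hy.1 hy.2)
      apply sum_congr rfl
      intro i _
      rw [PG_eq ⌊Y⌋₊ (f i) (ψ i) y (by linarith [hy.1]) (Nat.floor_mono hy.2)]
  rw [intervalIntegral.integral_const, smul_eq_mul] at h2
  have h3 := mul_le_mul_of_nonneg_left (hB Y hY le_rfl) hY0.le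
  nlinarith

/-- the exponential sum at `1 / q` -/
noncomputable def CE (q : ℕ) (Y : ℝ) : ℂ :=
  ∑ n ∈ Icc 1 ⌊Y⌋₊, ((ArithmeticFunction.vonMangoldt n : ℝ) : ℂ) * H343.ex ((n : ℝ) / q) *
    ((Y - n : ℝ) : ℂ)

/-- the sum without the exponential -/
noncomputable def C0 (Y : ℝ) : ℝ :=
  ∑ n ∈ Icc 1 ⌊Y⌋₊, ArithmeticFunction.vonMangoldt n * (Y - n)

theorem prim_of_prime {q : ℕ} (hq : q.Prime) (χ : DirichletCharacter ℂ q) (hχ : χ ≠ 1) :
    χ.IsPrimitive := by
  have : NeZero q := ⟨hq.ne_zero⟩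
  rw [DirichletCharacter.isPrimitive_def]
  have h1 := DirichletCharacter.conductor_dvd_level χ
  rcases (Nat.dvd_prime hq).1 h1 with h | h
  · exfalso
    apply hχ
    rw [DirichletCharacter.eq_one_iff_conductor_eq_one]
    exact h
  · exact h

/-- the expansion into characters -/
theorem CE_expand {q : ℕ} (hq : q.Prime) (Y : ℝ) (hY : 1 ≤ Y) :
    ‖((q : ℂ) - 1) * CE q Y + (C0 Y : ℂ)‖ ≤
      Real.sqrt q * ∑ χ ∈ Prim q, ‖CX Y q χ‖ + q * (Y * Real.log Y) := by
  classical
  have : NeZero q := ⟨hq.ne_zero⟩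
  have hY0 : 0 < Y := by linarith
  have hq2 := hq.two_le
  have hmu : ((ArithmeticFunction.moebius q : ℤ) : ℂ) = -1 := by
    rw [ArithmeticFunction.moebius_apply_prime hq]
    norm_num
  -- pointwise
  have hpt : ∀ n : ℕ, ((q : ℂ) - 1) * H343.ex ((n : ℝ) / q) + 1 =
      ∑ χ ∈ Prim q, H343.GS χ⁻¹ * χ (n : ZMod q) + (if n.Coprime q then 0 else (q : ℂ)) := by
    intro n
    have hset : (univ : Finset (DirichletCharacter ℂ q)) = insert 1 (Prim q) := by
      ext χ
      simp only [mem_univ, mem_insert, true_iff]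
      by_cases h : χ = 1
      · exact Or.inl h
      · right
        unfold Prim
        rw [mem_filter]
        exact ⟨mem_univ _, prim_of_prime hq χ h⟩
    have hnot : (1 : DirichletCharacter ℂ q) ∉ Prim q := by
      intro h
      exact prim_ne_one hq2 h rfl
    by_cases hn : n.Coprime q
    · rw [if_pos hn, add_zero]
      have h1 := H343.GS_expand q n hq.one_le hn
      rw [hset, sum_insert hnot, Nat.totient_prime hq] at h1
      rw [inv_one, H343.GS_one q hq.one_le, hmu] at h1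
      have h2 : (1 : DirichletCharacter ℂ q) (n : ZMod q) = 1 := by
        apply MulChar.one_apply
        rw [ZMod.isUnit_iff_coprime]
        exact hn
      rw [h2, Nat.cast_sub hq.one_le, Nat.cast_one] at h1
      rw [h1]
      have h3 : ∑ x ∈ Prim q, x (n : ZMod q) * H343.GS x⁻¹ =
          ∑ x ∈ Prim q, H343.GS x⁻¹ * x (n : ZMod q) := sum_congr rfl fun x _ => mul_comm _ _
      rw [h3]
      ring
    · rw [if_neg hn]
      have hdvd : q ∣ n := by
        by_contra h
        exact hn ((Nat.Prime.coprime_iff_not_dvd hq).2 h).symm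
      obtain ⟨k, rfl⟩ := hdvd
      have h1 : ∀ χ ∈ Prim q, H343.GS χ⁻¹ * χ ((q * k : ℕ) : ZMod q) = 0 := by
        intro χ _
        have : ¬ IsUnit ((q * k : ℕ) : ZMod q) := by
          rw [ZMod.isUnit_iff_coprime]
          exact hn
        rw [MulChar.map_nonunit χ this, mul_zero]
      rw [sum_eq_zero h1]
      have h2 : ((q * k : ℕ) : ℝ) / q = (k : ℝ) := by
        have : (q : ℝ) ≠ 0 := by exact_mod_cast hq.ne_zero
        push_cast
        field_simp
      rw [h2, H343.Gauss.ex_nat]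
      ring
  have h1 : ((q : ℂ) - 1) * CE q Y + (C0 Y : ℂ) = ∑ χ ∈ Prim q, H343.GS χ⁻¹ * CX Y q χ +
      (q : ℂ) * ∑ n ∈ (Icc 1 ⌊Y⌋₊).filter (fun n => ¬ n.Coprime q),
        ((ArithmeticFunction.vonMangoldt n * (Y - n) : ℝ) : ℂ) := by
    have e1 : ∑ χ ∈ Prim q, H343.GS χ⁻¹ * CX Y q χ = ∑ n ∈ Icc 1 ⌊Y⌋₊,
        ((ArithmeticFunction.vonMangoldt n * (Y - n) : ℝ) : ℂ) *
          ∑ χ ∈ Prim q, H343.GS χ⁻¹ * χ (n : ZMod q) := by
      unfold CX
      simp_rw [mul_sum]
      rw [sum_comm]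
      apply sum_congr rfl
      intro n _
      apply sum_congr rfl
      intro χ _
      push_cast
      ring
    rw [e1, sum_filter, mul_sum, ← sum_add_distrib]
    unfold CE C0
    rw [Complex.ofReal_sum, mul_sum, ← sum_add_distrib]
    apply sum_congr rfl
    intro n _
    have h2 := hpt n
    have h3 : ∑ χ ∈ Prim q, H343.GS χ⁻¹ * χ (n : ZMod q) = ((q : ℂ) - 1) * H343.ex ((n : ℝ) / q) + 1
        - (if n.Coprime q then 0 else (q : ℂ)) := by
      rw [h2]; ring
    rw [h3]
    by_cases hn : n.Coprime q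
    · rw [if_pos hn, if_neg (not_not.2 hn)]
      push_cast
      ring
    · rw [if_neg hn, if_pos hn]
      push_cast
      ring
  rw [h1]
  refine (norm_add_le _ _).trans (add_le_add ?_ ?_)
  · refine (norm_sum_le _ _).trans ?_
    rw [mul_sum]
    apply sum_le_sum
    intro χ hχ
    have hprim : χ.IsPrimitive := by
      unfold Prim at hχ
      rw [mem_filter] at hχ
      exact hχ.2
    have hinv : (χ⁻¹).IsPrimitive := by
      rw [DirichletCharacter.isPrimitive_def, DirichletCharacter.conductor_inv]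
      exact hprim
    rw [norm_mul, H343.GS_primitive q hq.one_le χ⁻¹ hinv]
  · rw [norm_mul, Complex.norm_natCast]
    apply mul_le_mul_of_nonneg_left _ (by positivity)
    refine (norm_sum_le _ _).trans ?_
    have h2 := sum_not_coprime ⌊Y⌋₊ q hq.one_le
    rw [hq.primeFactors, card_singleton] at h2
    calc ∑ n ∈ (Icc 1 ⌊Y⌋₊).filter (fun n => ¬ n.Coprime q),
          ‖((ArithmeticFunction.vonMangoldt n * (Y - n) : ℝ) : ℂ)‖ ≤
        ∑ n ∈ (Icc 1 ⌊Y⌋₊).filter (fun n => ¬ n.Coprime q),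
          ArithmeticFunction.vonMangoldt n * Y := by
          apply sum_le_sum
          intro n hn
          rw [mem_filter, mem_Icc] at hn
          have hnY : (n : ℝ) ≤ Y := (Nat.le_floor_iff hY0.le).1 hn.1.2
          have hn0 : (0 : ℝ) ≤ n := Nat.cast_nonneg _
          rw [Complex.norm_real, Real.norm_of_nonneg
            (mul_nonneg ArithmeticFunction.vonMangoldt_nonneg (by linarith))]
          exact mul_le_mul_of_nonneg_left (by linarith) ArithmeticFunction.vonMangoldt_nonneg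
      _ = (∑ n ∈ (Icc 1 ⌊Y⌋₊).filter (fun n => ¬ n.Coprime q),
          ArithmeticFunction.vonMangoldt n) * Y := by rw [sum_mul]
      _ ≤ (1 * Real.log Y) * Y := by
          apply mul_le_mul_of_nonneg_right _ hY0.le
          refine h2.trans ?_
          push_cast
          rw [one_mul, one_mul]
          exact log_natCast_le _ _ hY (Nat.floor_le hY0.le)
      _ = Y * Real.log Y := by ring

end Pool.Agent.D0H44.EL
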