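import Mathlib
import Pool.Agent.D0H44.EL.Ces
import Pool.Agent.H321R3.VP.Dual

/-! Integrals of piecewise linear functions against `e(x / q)`; the inner products. -/

open Finset MeasureTheory

namespace Pool.Agent.D0H44.EL

open H343 (ex)

/-- `i`-free form of `q / (2 π i)` -/
noncomputable def cq (q : ℕ) : ℂ := (q : ℂ) / (2 * Real.pi * Complex.I)

theorem norm_cq (q : ℕ) : ‖cq q‖ = q / (2 * Real.pi) := by
  unfold cq
  rw [norm_div, norm_mul, norm_mul, Complex.norm_I, Complex.norm_natCast, Complex.norm_real,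
    Real.norm_of_nonneg Real.pi_pos.le]
  simp

theorem ex_deriv (q : ℕ) (x : ℝ) :
    HasDerivAt (fun x : ℝ => ex (x / q)) (((2 * Real.pi / q : ℝ) : ℂ) * Complex.I * ex (x / q)) x := by
  unfold H343.ex
  have h1 : HasDerivAt (fun x : ℝ => (2 * Real.pi * (x / q) : ℝ)) (2 * Real.pi / q) x := by
    have h := ((hasDerivAt_id' x).div_const (q : ℝ)).const_mul (2 * Real.pi)
    refine h.congr_deriv ?_
    ring
  have h2 := h1.ofReal_comp.mul_const Complex.I
  have h3 := h2.cexp
  convert h3 using 1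
  push_cast
  ring

theorem ex_cont (q : ℕ) : Continuous (fun x : ℝ => ex (x / q)) := by
  unfold H343.ex
  fun_prop

/-- the primitive of `(Y - x) e(x / q)` -/
theorem prim_deriv (q : ℕ) (hq : 1 ≤ q) (Y x : ℝ) :
    HasDerivAt (fun x : ℝ => ((Y - x : ℝ) : ℂ) * (cq q * ex (x / q)) + cq q ^ 2 * ex (x / q))
      (((Y - x : ℝ) : ℂ) * ex (x / q)) x := by
  have hq0 : (q : ℂ) ≠ 0 := by exact_mod_cast (by omega : q ≠ 0)
  have hpi : (Real.pi : ℂ) ≠ 0 := by exact_mod_cast Real.pi_ne_zero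
  have h1 := ex_deriv q x
  have h2 : HasDerivAt (fun x : ℝ => ((Y - x : ℝ) : ℂ)) ((-1 : ℝ) : ℂ) x := by
    have := ((hasDerivAt_id x).const_sub Y)
    exact this.ofReal_comp
  have h3 := HasDerivAt.fun_add (HasDerivAt.fun_mul h2 (h1.const_mul (cq q)))
    (h1.const_mul (cq q ^ 2))
  refine h3.congr_deriv ?_
  have e : cq q * (((2 * Real.pi / q : ℝ) : ℂ) * Complex.I) = 1 := by
    unfold cq
    push_cast
    field_simp
  have e2 : cq q ^ 2 * (((2 * Real.pi / q : ℝ) : ℂ) * Complex.I) = cq q := by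
    rw [pow_two, mul_assoc, e, mul_one]
  push_cast at *
  linear_combination (((Y : ℂ) - x) * ex (x / q)) * e + ex (x / q) * e2

/-- the ramp -/
noncomputable def rp (Y x : ℝ) : ℝ := max (Y - x) 0

theorem rp_cont (Y : ℝ) : Continuous (rp Y) := by
  unfold rp
  fun_prop

theorem ramp_int (q : ℕ) (hq : 1 ≤ q) (Y u v : ℝ) (huv : u ≤ v) :
    ‖(∫ x in u..v, ((rp Y x : ℝ) : ℂ) * ex (x / q)) -
      cq q * (((rp Y v : ℝ) : ℂ) * ex (v / q) - ((rp Y u : ℝ) : ℂ) * ex (u / q))‖ ≤
      (q : ℝ) ^ 2 / 16 := by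
  have hmm : min u Y ≤ min v Y := min_le_min_right Y huv
  have hc : ∀ s t : ℝ, IntervalIntegrable (fun x : ℝ => ((rp Y x : ℝ) : ℂ) * ex (x / q)) volume s t := by
    intro s t
    apply Continuous.intervalIntegrable
    exact (Complex.continuous_ofReal.comp (rp_cont Y)).mul (ex_cont q)
  have hc' : ∀ s t : ℝ, IntervalIntegrable (fun x : ℝ => ((Y - x : ℝ) : ℂ) * ex (x / q)) volume s t := by
    intro s t
    apply Continuous.intervalIntegrable
    exact (Complex.continuous_ofReal.comp (by fun_prop)).mul (ex_cont q)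
  -- beyond `Y` the ramp vanishes
  have hz : ∀ s t : ℝ, Y ≤ s → s ≤ t → ∫ x in s..t, ((rp Y x : ℝ) : ℂ) * ex (x / q) = 0 := by
    intro s t hs hst
    have : ∫ x in s..t, ((rp Y x : ℝ) : ℂ) * ex (x / q) = ∫ x in s..t, (0 : ℂ) := by
      apply intervalIntegral.integral_congr
      intro x hx
      rw [Set.uIcc_of_le hst, Set.mem_Icc] at hx
      simp only
      unfold rp
      rw [max_eq_right (by linarith [hx.1])]
      simp
    rw [this]
    simp
  have key : ∫ x in u..v, ((rp Y x : ℝ) : ℂ) * ex (x / q) =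
      ∫ x in (min u Y)..(min v Y), ((Y - x : ℝ) : ℂ) * ex (x / q) := by
    have h1 : ∫ x in (min u Y)..(min v Y), ((Y - x : ℝ) : ℂ) * ex (x / q) =
        ∫ x in (min u Y)..(min v Y), ((rp Y x : ℝ) : ℂ) * ex (x / q) := by
      apply intervalIntegral.integral_congr
      intro x hx
      rw [Set.uIcc_of_le hmm, Set.mem_Icc] at hx
      simp only
      unfold rp
      rw [max_eq_left]
      have := min_le_right v Y
      linarith [hx.2]
    rw [h1]
    have h2 : ∫ x in (min u Y)..u, ((rp Y x : ℝ) : ℂ) * ex (x / q) = 0 := by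
      rcases le_total u Y with h | h
      · rw [min_eq_left h]; simp
      · rw [min_eq_right h]; exact hz Y u le_rfl h
    have h3 : ∫ x in (min v Y)..v, ((rp Y x : ℝ) : ℂ) * ex (x / q) = 0 := by
      rcases le_total v Y with h | h
      · rw [min_eq_left h]; simp
      · rw [min_eq_right h]; exact hz Y v le_rfl h
    have h4 := intervalIntegral.integral_add_adjacent_intervals (hc (min u Y) u) (hc u v)
    have h5 := intervalIntegral.integral_add_adjacent_intervals (hc (min u Y) (min v Y))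
      (hc (min v Y) v)
    rw [h2, zero_add] at h4
    rw [h3, add_zero] at h5
    rw [h4, h5]
  have hF := intervalIntegral.integral_eq_sub_of_hasDerivAt
    (fun x _ => prim_deriv q hq Y x) (hc' (min u Y) (min v Y))
  rw [key, hF]
  have hb : ∀ w : ℝ, ((Y - min w Y : ℝ) : ℂ) * (cq q * ex (min w Y / q)) =
      cq q * (((rp Y w : ℝ) : ℂ) * ex (w / q)) := by
    intro w
    unfold rp
    rcases le_total w Y with h | h
    · rw [min_eq_left h, max_eq_left (by linarith)]
      ring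
    · rw [min_eq_right h, max_eq_right (by linarith)]
      simp
  rw [hb v, hb u]
  have e : cq q * (((rp Y v : ℝ) : ℂ) * ex (v / q)) + cq q ^ 2 * ex (min v Y / q) -
      (cq q * (((rp Y u : ℝ) : ℂ) * ex (u / q)) + cq q ^ 2 * ex (min u Y / q)) -
      cq q * (((rp Y v : ℝ) : ℂ) * ex (v / q) - ((rp Y u : ℝ) : ℂ) * ex (u / q)) =
      cq q ^ 2 * (ex (min v Y / q) - ex (min u Y / q)) := by ring
  rw [e, norm_mul, norm_pow, norm_cq]
  have h6 : ‖ex (min v Y / q) - ex (min u Y / q)‖ ≤ 2 := by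
    refine (norm_sub_le _ _).trans ?_
    rw [H343.Gauss.norm_ex, H343.Gauss.norm_ex]
    norm_num
  have h7 : ((q : ℝ) / (2 * Real.pi)) ^ 2 ≤ (q : ℝ) ^ 2 / 32 := by
    rw [div_pow, mul_pow]
    apply div_le_div_of_nonneg_left (by positivity) (by norm_num)
    have := Real.pi_gt_three
    nlinarith
  calc ((q : ℝ) / (2 * Real.pi)) ^ 2 * ‖ex (min v Y / q) - ex (min u Y / q)‖ ≤
      (q : ℝ) ^ 2 / 32 * 2 := by gcongr
    _ = (q : ℝ) ^ 2 / 16 := by ring

/-- the tent with centre `m` and half-width `D` -/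
noncomputable def kt (m D x : ℝ) : ℝ := (rp (m + D) x - 2 * rp m x + rp (m - D) x) / D

theorem kt_cont (m D : ℝ) : Continuous (kt m D) := by
  unfold kt
  exact (((rp_cont _).sub ((rp_cont _).const_mul 2)).add (rp_cont _)).div_const _

theorem kt_eq (m D x : ℝ) (hD : 0 < D) : kt m D x = max (1 - |x - m| / D) 0 := by
  unfold kt rp
  rcases le_total x m with h | h
  · rw [abs_of_nonpos (by linarith)]
    rw [max_eq_left (by linarith : (0 : ℝ) ≤ m + D - x), max_eq_left (by linarith : (0 : ℝ) ≤ m - x)]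
    rcases le_total x (m - D) with h2 | h2
    · rw [max_eq_left (by linarith), max_eq_right]
      · field_simp
        ring
      · have : 1 ≤ -(x - m) / D := by rw [le_div_iff₀ hD]; linarith
        linarith
    · rw [max_eq_right (by linarith), max_eq_left]
      · field_simp
        ring
      · have : -(x - m) / D ≤ 1 := by rw [div_le_one hD]; linarith
        linarith
  · rw [abs_of_nonneg (by linarith)]
    rw [max_eq_right (by linarith : m - x ≤ 0), max_eq_right (by linarith : m - D - x ≤ 0)]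
    rcases le_total x (m + D) with h2 | h2
    · rw [max_eq_left (by linarith), max_eq_left]
      · field_simp
        ring
      · have : (x - m) / D ≤ 1 := by rw [div_le_one hD]; linarith
        linarith
    · rw [max_eq_right (by linarith), max_eq_right]
      · simp
      · have : 1 ≤ (x - m) / D := by rw [le_div_iff₀ hD]; linarith
        linarith

theorem kt_nonneg (m D x : ℝ) (hD : 0 < D) : 0 ≤ kt m D x := by
  rw [kt_eq m D x hD]
  exact le_max_right _ _

theorem kt_le_one (m D x : ℝ) (hD : 0 < D) : kt m D x ≤ 1 := by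
  rw [kt_eq m D x hD]
  apply max_le
  · have : 0 ≤ |x - m| / D := by positivity
    linarith
  · norm_num

theorem kt_zero (m D x : ℝ) (hD : 0 < D) (h : D ≤ |x - m|) : kt m D x = 0 := by
  rw [kt_eq m D x hD]
  apply max_eq_right
  have : 1 ≤ |x - m| / D := by rw [le_div_iff₀ hD]; linarith
  linarith

theorem kt_lip (m D x y : ℝ) (hD : 0 < D) : |kt m D x - kt m D y| ≤ |x - y| / D := by
  rw [kt_eq m D x hD, kt_eq m D y hD]
  refine (abs_max_sub_max_le_abs _ _ _).trans ?_
  have e : 1 - |x - m| / D - (1 - |y - m| / D) = (|y - m| - |x - m|) / D := by ring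
  rw [e, abs_div, abs_of_pos hD]
  apply div_le_div_of_nonneg_right _ hD.le
  refine (abs_abs_sub_abs_le _ _).trans (le_of_eq ?_)
  have e2 : y - m - (x - m) = -(x - y) := by ring
  rw [e2, abs_neg]

/-- the test function -/
noncomputable def gt (m D : ℝ) (q : ℕ) (x : ℝ) : ℂ := ((kt m D x : ℝ) : ℂ) * ex (x / q)

theorem gt_cont (m D : ℝ) (q : ℕ) : Continuous (gt m D q) :=
  (Complex.continuous_ofReal.comp (kt_cont m D)).mul (ex_cont q)

theorem gt_int (m D : ℝ) (hD : 0 < D) (q : ℕ) (hq : 1 ≤ q) (u v : ℝ) (huv : u ≤ v) :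
    ‖(∫ x in u..v, gt m D q x) - cq q * (gt m D q v - gt m D q u)‖ ≤ (q : ℝ) ^ 2 / (4 * D) := by
  have hD0 : (D : ℂ) ≠ 0 := by exact_mod_cast hD.ne'
  have hc : ∀ Y : ℝ, IntervalIntegrable (fun x : ℝ => ((rp Y x : ℝ) : ℂ) * ex (x / q)) volume u v := by
    intro Y
    apply Continuous.intervalIntegrable
    exact (Complex.continuous_ofReal.comp (rp_cont Y)).mul (ex_cont q)
  have h0 : ∀ x, gt m D q x = (1 / (D : ℂ)) * (((rp (m + D) x : ℝ) : ℂ) * ex (x / q) -
      2 * (((rp m x : ℝ) : ℂ) * ex (x / q)) + ((rp (m - D) x : ℝ) : ℂ) * ex (x / q)) := by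
    intro x
    unfold gt kt
    push_cast
    ring
  have h1 : ∫ x in u..v, gt m D q x = (1 / (D : ℂ)) *
      ((∫ x in u..v, ((rp (m + D) x : ℝ) : ℂ) * ex (x / q)) -
      2 * (∫ x in u..v, ((rp m x : ℝ) : ℂ) * ex (x / q)) +
      ∫ x in u..v, ((rp (m - D) x : ℝ) : ℂ) * ex (x / q)) := by
    simp_rw [h0]
    rw [intervalIntegral.integral_const_mul, intervalIntegral.integral_add
      ((hc _).sub ((hc _).const_mul 2)) (hc _), intervalIntegral.integral_sub (hc _)
      ((hc _).const_mul 2), intervalIntegral.integral_const_mul]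
  have r1 := ramp_int q hq (m + D) u v huv
  have r2 := ramp_int q hq m u v huv
  have r3 := ramp_int q hq (m - D) u v huv
  set I1 := ∫ x in u..v, ((rp (m + D) x : ℝ) : ℂ) * ex (x / q)
  set I2 := ∫ x in u..v, ((rp m x : ℝ) : ℂ) * ex (x / q)
  set I3 := ∫ x in u..v, ((rp (m - D) x : ℝ) : ℂ) * ex (x / q)
  set B1 := cq q * (((rp (m + D) v : ℝ) : ℂ) * ex (v / q) - ((rp (m + D) u : ℝ) : ℂ) * ex (u / q))
  set B2 := cq q * (((rp m v : ℝ) : ℂ) * ex (v / q) - ((rp m u : ℝ) : ℂ) * ex (u / q)) with hB2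
  set B3 := cq q * (((rp (m - D) v : ℝ) : ℂ) * ex (v / q) - ((rp (m - D) u : ℝ) : ℂ) * ex (u / q))
  have e : (∫ x in u..v, gt m D q x) - cq q * (gt m D q v - gt m D q u) =
      (1 / (D : ℂ)) * ((I1 - B1) - 2 * (I2 - B2) + (I3 - B3)) := by
    rw [h1, h0 v, h0 u]
    ring
  rw [e, norm_mul]
  have hn : ‖(1 / (D : ℂ))‖ = 1 / D := by
    rw [norm_div, norm_one, Complex.norm_real, Real.norm_of_nonneg hD.le]
  rw [hn]
  have t : ‖(I1 - B1) - 2 * (I2 - B2) + (I3 - B3)‖ ≤ (q : ℝ) ^ 2 / 4 := by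
    calc _ ≤ ‖I1 - B1‖ + ‖2 * (I2 - B2)‖ + ‖I3 - B3‖ :=
          (norm_add_le _ _).trans (add_le_add_left (norm_sub_le _ _) _)
      _ = ‖I1 - B1‖ + 2 * ‖I2 - B2‖ + ‖I3 - B3‖ := by
          rw [norm_mul]
          norm_num
      _ ≤ _ := by linarith
  calc 1 / D * ‖(I1 - B1) - 2 * (I2 - B2) + (I3 - B3)‖ ≤ 1 / D * ((q : ℝ) ^ 2 / 4) := by gcongr
    _ = _ := by field_simp

end Pool.Agent.D0H44.EL
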