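import Mathlib
import Pool.Agent.D0H44.EL.Ramp

/-! The inner products of `ψ(x; H) - H` with the test functions. -/

open Finset MeasureTheory

namespace Pool.Agent.D0H44.EL

open H343 (ex)
open H321VP (DD)
open Pool.Agent.H398R2.BV

theorem gt_zero (m D : ℝ) (hD : 0 < D) (q : ℕ) (x : ℝ) (h : x ∉ Set.Icc (m - D) (m + D)) :
    gt m D q x = 0 := by
  unfold gt
  rw [kt_zero m D x hD]
  · simp
  · by_contra hc
    push Not at hc
    rw [abs_lt] at hc
    exact h ⟨by linarith [hc.1], by linarith [hc.2]⟩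

theorem gt_left (m D : ℝ) (hD : 0 < D) (q : ℕ) : gt m D q (m - D) = 0 := by
  unfold gt
  rw [kt_zero m D _ hD]
  · simp
  · rw [show m - D - m = -D by ring, abs_neg, abs_of_pos hD]

theorem gt_right (m D : ℝ) (hD : 0 < D) (q : ℕ) : gt m D q (m + D) = 0 := by
  unfold gt
  rw [kt_zero m D _ hD]
  · simp
  · rw [show m + D - m = D by ring, abs_of_pos hD]

/-- the inner product -/
noncomputable def II (M : ℕ) (H m D : ℝ) (q : ℕ) : ℂ :=
  ∫ x in Set.Icc (m - D) (m + D), ((DD M H x : ℝ) : ℂ) * gt m D q x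

theorem II_eq (M : ℕ) (H m D : ℝ) (hH : 0 < H) (hD : 0 < D) (q : ℕ) :
    II M H m D q = ∑ n ∈ Icc 1 M, ((ArithmeticFunction.vonMangoldt n : ℝ) : ℂ) *
      (∫ x in ((n : ℝ) - H / 2)..(n + H / 2), gt m D q x) -
      (H : ℂ) * ∫ x in (m - D)..(m + D), gt m D q x := by
  set g := gt m D q with hg
  have hgc : Continuous g := gt_cont m D q
  have hgi : ∀ u v : ℝ, IntegrableOn g (Set.Icc u v) := fun u v =>
    hgc.continuousOn.integrableOn_Icc
  have h1 : ∀ x, ((DD M H x : ℝ) : ℂ) * g x = ∑ n ∈ Icc 1 M,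
      ((ArithmeticFunction.vonMangoldt n : ℝ) : ℂ) *
        (Set.Icc ((n : ℝ) - H / 2) (n + H / 2)).indicator g x - (H : ℂ) * g x := by
    intro x
    unfold DD
    push_cast
    rw [sub_mul, sum_mul]
    congr 1
    apply sum_congr rfl
    intro n _
    rw [mul_assoc]
    congr 1
    by_cases hx : x ∈ Set.Icc ((n : ℝ) - H / 2) (n + H / 2)
    · rw [Set.indicator_of_mem hx, Set.indicator_of_mem hx]
      simp
    · rw [Set.indicator_of_notMem hx, Set.indicator_of_notMem hx]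
      simp
  unfold II
  simp_rw [← hg, h1]
  rw [integral_sub]
  · rw [integral_const_mul, integral_finset_sum]
    · congr 1
      · apply sum_congr rfl
        intro n _
        rw [integral_const_mul]
        congr 1
        rw [setIntegral_indicator measurableSet_Icc]
        have hle : (n : ℝ) - H / 2 ≤ n + H / 2 := by linarith
        rw [intervalIntegral.integral_of_le hle, ← integral_Icc_eq_integral_Ioc]
        have h2 : g = (Set.Icc (m - D) (m + D)).indicator g := by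
          funext x
          by_cases hx : x ∈ Set.Icc (m - D) (m + D)
          · rw [Set.indicator_of_mem hx]
          · rw [Set.indicator_of_notMem hx]
            exact gt_zero m D hD q x hx
        conv_rhs => rw [h2]
        rw [setIntegral_indicator measurableSet_Icc, Set.inter_comm]
      · rw [intervalIntegral.integral_of_le (by linarith), ← integral_Icc_eq_integral_Ioc]
    · intro n _
      apply Integrable.const_mul
      exact (hgi _ _).indicator measurableSet_Icc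
  · apply integrable_finset_sum
    intro n _
    apply Integrable.const_mul
    exact (hgi _ _).indicator measurableSet_Icc
  · exact (hgi _ _).const_mul _

/-- the exponential sum with the tent -/
noncomputable def Ah (M : ℕ) (m D : ℝ) (q : ℕ) (h : ℝ) : ℂ :=
  ∑ n ∈ Icc 1 M, ((ArithmeticFunction.vonMangoldt n : ℝ) : ℂ) * ex ((n : ℝ) / q) *
    ((kt m D (n + h) : ℝ) : ℂ)

/-- the sum with the tent -/
noncomputable def Mh (M : ℕ) (m D h : ℝ) : ℝ :=
  ∑ n ∈ Icc 1 M, ArithmeticFunction.vonMangoldt n * kt m D (n + h)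

theorem CE_rp (M : ℕ) (q : ℕ) (Y : ℝ) (hY : 0 ≤ Y) (hM : Y ≤ M) :
    ∑ n ∈ Icc 1 M, ((ArithmeticFunction.vonMangoldt n : ℝ) : ℂ) * ex ((n : ℝ) / q) *
      ((rp Y n : ℝ) : ℂ) = CE q Y := by
  unfold CE
  have hM' : ⌊Y⌋₊ ≤ M := Nat.floor_le_of_le hM
  symm
  rw [← sum_subset (Icc_subset_Icc_right hM')]
  · apply sum_congr rfl
    intro n hn
    rw [mem_Icc] at hn
    unfold rp
    rw [max_eq_left]
    have : (n : ℝ) ≤ Y := (Nat.le_floor_iff hY).1 hn.2
    linarith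
  · intro n hn hn'
    rw [mem_Icc] at hn hn'
    have h1 : ¬ n ≤ ⌊Y⌋₊ := fun h => hn' ⟨hn.1, h⟩
    rw [Nat.le_floor_iff hY] at h1
    unfold rp
    rw [max_eq_right (by linarith)]
    simp

theorem C0_rp (M : ℕ) (Y : ℝ) (hY : 0 ≤ Y) (hM : Y ≤ M) :
    ∑ n ∈ Icc 1 M, ArithmeticFunction.vonMangoldt n * rp Y n = C0 Y := by
  unfold C0
  have hM' : ⌊Y⌋₊ ≤ M := Nat.floor_le_of_le hM
  symm
  rw [← sum_subset (Icc_subset_Icc_right hM')]
  · apply sum_congr rfl
    intro n hn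
    rw [mem_Icc] at hn
    unfold rp
    rw [max_eq_left]
    have : (n : ℝ) ≤ Y := (Nat.le_floor_iff hY).1 hn.2
    linarith
  · intro n hn hn'
    rw [mem_Icc] at hn hn'
    have h1 : ¬ n ≤ ⌊Y⌋₊ := fun h => hn' ⟨hn.1, h⟩
    rw [Nat.le_floor_iff hY] at h1
    unfold rp
    rw [max_eq_right (by linarith)]
    simp

theorem rp_shift (Y x h : ℝ) : rp Y (x + h) = rp (Y - h) x := by
  unfold rp
  congr 1
  ring

theorem Ah_eq (M : ℕ) (m D : ℝ) (q : ℕ) (h : ℝ) (hD : 0 < D) (h1 : 0 ≤ m - D - h)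
    (h2 : m + D - h ≤ M) :
    Ah M m D q h = (1 / (D : ℂ)) * (CE q (m + D - h) - 2 * CE q (m - h) + CE q (m - D - h)) := by
  rw [← CE_rp M q (m + D - h) (by linarith) h2, ← CE_rp M q (m - h) (by linarith) (by linarith),
    ← CE_rp M q (m - D - h) h1 (by linarith)]
  unfold Ah kt
  simp_rw [mul_sum]
  rw [← sum_sub_distrib, ← sum_add_distrib, mul_sum]
  apply sum_congr rfl
  intro n _
  rw [rp_shift, rp_shift, rp_shift]
  push_cast
  ring

theorem Mh_eq (M : ℕ) (m D : ℝ) (h : ℝ) (hD : 0 < D) (h1 : 0 ≤ m - D - h)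
    (h2 : m + D - h ≤ M) :
    Mh M m D h = (1 / D) * (C0 (m + D - h) - 2 * C0 (m - h) + C0 (m - D - h)) := by
  rw [← C0_rp M (m + D - h) (by linarith) h2, ← C0_rp M (m - h) (by linarith) (by linarith),
    ← C0_rp M (m - D - h) h1 (by linarith)]
  unfold Mh kt
  simp_rw [mul_sum]
  rw [← sum_sub_distrib, ← sum_add_distrib, mul_sum]
  apply sum_congr rfl
  intro n _
  rw [rp_shift, rp_shift, rp_shift]
  ring

/-- the bound for the error of the expansion into characters -/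
noncomputable def TT (q : ℕ) (Y : ℝ) : ℝ :=
  Real.sqrt q * ∑ χ ∈ Prim q, ‖CX Y q χ‖ + q * (Y * Real.log Y)

theorem Ah_Mh (M : ℕ) (m D : ℝ) {q : ℕ} (hq : q.Prime) (h : ℝ) (hD : 0 < D)
    (h1 : 1 ≤ m - D - h) (h2 : m + D - h ≤ M) :
    ‖((q : ℂ) - 1) * Ah M m D q h + (Mh M m D h : ℂ)‖ ≤
      (TT q (m + D - h) + 2 * TT q (m - h) + TT q (m - D - h)) / D := by
  rw [Ah_eq M m D q h hD (by linarith) h2, Mh_eq M m D h hD (by linarith) h2]
  have b1 := CE_expand hq (m + D - h) (by linarith)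
  have b2 := CE_expand hq (m - h) (by linarith)
  have b3 := CE_expand hq (m - D - h) h1
  set X1 := ((q : ℂ) - 1) * CE q (m + D - h) + (C0 (m + D - h) : ℂ)
  set X2 := ((q : ℂ) - 1) * CE q (m - h) + (C0 (m - h) : ℂ) with hX2
  set X3 := ((q : ℂ) - 1) * CE q (m - D - h) + (C0 (m - D - h) : ℂ)
  have e : ((q : ℂ) - 1) * ((1 / (D : ℂ)) * (CE q (m + D - h) - 2 * CE q (m - h) +
      CE q (m - D - h))) +
      (((1 / D) * (C0 (m + D - h) - 2 * C0 (m - h) + C0 (m - D - h)) : ℝ) : ℂ) =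
      (1 / (D : ℂ)) * (X1 - 2 * X2 + X3) := by
    push_cast
    ring
  rw [e, norm_mul]
  have hn : ‖(1 / (D : ℂ))‖ = 1 / D := by
    rw [norm_div, norm_one, Complex.norm_real, Real.norm_of_nonneg hD.le]
  rw [hn]
  have t : ‖X1 - 2 * X2 + X3‖ ≤ TT q (m + D - h) + 2 * TT q (m - h) + TT q (m - D - h) := by
    calc _ ≤ ‖X1‖ + ‖2 * X2‖ + ‖X3‖ :=
          (norm_add_le _ _).trans (add_le_add_left (norm_sub_le _ _) _)
      _ = ‖X1‖ + 2 * ‖X2‖ + ‖X3‖ := by
          rw [norm_mul]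
          norm_num
      _ ≤ _ := by
          unfold TT
          linarith
  rw [one_div, inv_mul_eq_div]
  gcongr

theorem II_main (M : ℕ) (H m D : ℝ) (hH : 0 < H) (hD : 0 < D) (q : ℕ) (hq : 1 ≤ q) :
    ‖II M H m D q - cq q * (ex (H / 2 / q) * Ah M m D q (H / 2) -
      ex (-(H / 2) / q) * Ah M m D q (-(H / 2)))‖ ≤
      ((∑ n ∈ Icc 1 M, ArithmeticFunction.vonMangoldt n) + H) * ((q : ℝ) ^ 2 / (4 * D)) := by
  rw [II_eq M H m D hH hD q]
  set g := gt m D q with hg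
  have e1 : cq q * (ex (H / 2 / q) * Ah M m D q (H / 2) -
      ex (-(H / 2) / q) * Ah M m D q (-(H / 2))) =
      ∑ n ∈ Icc 1 M, ((ArithmeticFunction.vonMangoldt n : ℝ) : ℂ) *
        (cq q * (g (n + H / 2) - g ((n : ℝ) - H / 2))) := by
    unfold Ah
    rw [mul_sum, mul_sum, ← sum_sub_distrib, mul_sum]
    apply sum_congr rfl
    intro n _
    have a1 : g (n + H / 2) = ((kt m D (n + H / 2) : ℝ) : ℂ) * (ex ((n : ℝ) / q) * ex (H / 2 / q)) := by
      rw [hg]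
      unfold gt
      rw [← H343.Gauss.ex_add]
      congr 2
      ring
    have a2 : g ((n : ℝ) - H / 2) = ((kt m D (n + -(H / 2)) : ℝ) : ℂ) *
        (ex ((n : ℝ) / q) * ex (-(H / 2) / q)) := by
      rw [hg]
      unfold gt
      rw [← H343.Gauss.ex_add]
      congr 2
      ring
    rw [a1, a2]
    ring
  have e2 : ∑ n ∈ Icc 1 M, ((ArithmeticFunction.vonMangoldt n : ℝ) : ℂ) *
      (∫ x in ((n : ℝ) - H / 2)..(n + H / 2), g x) -
      (H : ℂ) * (∫ x in (m - D)..(m + D), g x) -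
      ∑ n ∈ Icc 1 M, ((ArithmeticFunction.vonMangoldt n : ℝ) : ℂ) *
        (cq q * (g (n + H / 2) - g ((n : ℝ) - H / 2))) =
      ∑ n ∈ Icc 1 M, ((ArithmeticFunction.vonMangoldt n : ℝ) : ℂ) *
        ((∫ x in ((n : ℝ) - H / 2)..(n + H / 2), g x) -
          cq q * (g (n + H / 2) - g ((n : ℝ) - H / 2))) -
      (H : ℂ) * ∫ x in (m - D)..(m + D), g x := by
    simp_rw [mul_sub ((ArithmeticFunction.vonMangoldt _ : ℝ) : ℂ) (∫ x in _.._, g x)]
    rw [sum_sub_distrib]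
    ring
  rw [e1, e2]
  refine (norm_sub_le _ _).trans ?_
  rw [add_mul]
  apply add_le_add
  · refine (norm_sum_le _ _).trans ?_
    rw [sum_mul]
    apply sum_le_sum
    intro n _
    rw [norm_mul, Complex.norm_real, Real.norm_of_nonneg ArithmeticFunction.vonMangoldt_nonneg]
    apply mul_le_mul_of_nonneg_left _ ArithmeticFunction.vonMangoldt_nonneg
    exact gt_int m D hD q hq _ _ (by linarith)
  · rw [norm_mul, Complex.norm_real, Real.norm_of_nonneg hH.le]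
    apply mul_le_mul_of_nonneg_left _ hH.le
    have h1 := gt_int m D hD q hq (m - D) (m + D) (by linarith)
    rw [gt_left m D hD q, gt_right m D hD q, sub_zero, mul_zero, sub_zero] at h1
    exact h1

/-- the lower bound for one inner product -/
theorem II_lower (M : ℕ) (H m D σ : ℝ) (hH : 0 < H) (hD : 0 < D) {q : ℕ} (hq : q.Prime)
    (h1 : 1 ≤ m - D - H / 2) (h2 : m + D + H / 2 ≤ M) (hσ0 : 0 ≤ σ)
    (hσ : σ ≤ |Real.sin (Real.pi * (H / q))|) (hM0 : 0 ≤ 2 * σ * Mh M m D (H / 2) -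
      |Mh M m D (H / 2) - Mh M m D (-(H / 2))|) :
    (2 * σ * Mh M m D (H / 2) - |Mh M m D (H / 2) - Mh M m D (-(H / 2))|) / (2 * Real.pi) -
      ((TT q (m + D - H / 2) + 2 * TT q (m - H / 2) + TT q (m - D - H / 2)) / D +
       (TT q (m + D + H / 2) + 2 * TT q (m + H / 2) + TT q (m - D + H / 2)) / D) / Real.pi -
      ((∑ n ∈ Icc 1 M, ArithmeticFunction.vonMangoldt n) + H) * ((q : ℝ) ^ 2 / (4 * D)) ≤
      ‖II M H m D q‖ := by
  have hpi := Real.pi_pos
  have hq2 : (2 : ℝ) ≤ q := by exact_mod_cast hq.two_le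
  have hII := II_main M H m D hH hD q hq.one_le
  have d1 := Ah_Mh M m D hq (H / 2) hD h1 (by linarith)
  have d2 := Ah_Mh M m D hq (-(H / 2)) hD (by linarith) (by linarith)
  rw [sub_neg_eq_add, sub_neg_eq_add, sub_neg_eq_add] at d2
  set I := II M H m D q
  set A1 := Ah M m D q (H / 2)
  set A2 := Ah M m D q (-(H / 2))
  set M1 := Mh M m D (H / 2)
  set M2 := Mh M m D (-(H / 2))
  set δ1 := (TT q (m + D - H / 2) + 2 * TT q (m - H / 2) + TT q (m - D - H / 2)) / D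
  set δ2 := (TT q (m + D + H / 2) + 2 * TT q (m + H / 2) + TT q (m - D + H / 2)) / D
  set E := ((∑ n ∈ Icc 1 M, ArithmeticFunction.vonMangoldt n) + H) * ((q : ℝ) ^ 2 / (4 * D))
  set e1 := ex (H / 2 / q) with he1
  set e2 := ex (-(H / 2) / q) with he2
  have n1 : ‖e1‖ = 1 := H343.Gauss.norm_ex _
  have n2 : ‖e2‖ = 1 := H343.Gauss.norm_ex _
  -- the main term
  have hsin : ‖e1 - e2‖ = 2 * |Real.sin (Real.pi * (H / q))| := by
    have h3 : e1 - e2 = ((2 * Real.sin (Real.pi * (H / q)) : ℝ) : ℂ) * Complex.I := by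
      rw [he1, he2]
      unfold H343.ex
      have a1 : ((2 * Real.pi * (H / 2 / q) : ℝ) : ℂ) * Complex.I =
          ((Real.pi * (H / q) : ℝ) : ℂ) * Complex.I := by
        push_cast; ring
      have a2 : ((2 * Real.pi * (-(H / 2) / q) : ℝ) : ℂ) * Complex.I =
          (-((Real.pi * (H / q) : ℝ) : ℂ)) * Complex.I := by
        push_cast; ring
      rw [a1, a2, Complex.exp_mul_I, Complex.exp_mul_I, Complex.cos_neg, Complex.sin_neg]
      push_cast
      ring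
    rw [h3, norm_mul, Complex.norm_I, mul_one, Complex.norm_real, Real.norm_eq_abs, abs_mul]
    norm_num
  have hmain : 2 * σ * M1 - |M1 - M2| ≤ ‖e1 * (M1 : ℂ) - e2 * (M2 : ℂ)‖ := by
    have h3 : e1 * (M1 : ℂ) - e2 * (M2 : ℂ) = (e1 - e2) * (M1 : ℂ) + e2 * ((M1 - M2 : ℝ) : ℂ) := by
      push_cast; ring
    rw [h3]
    have h4 : ‖(e1 - e2) * (M1 : ℂ)‖ = 2 * |Real.sin (Real.pi * (H / q))| * |M1| := by
      rw [norm_mul, hsin, Complex.norm_real, Real.norm_eq_abs]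
    have h5 : ‖e2 * ((M1 - M2 : ℝ) : ℂ)‖ = |M1 - M2| := by
      rw [norm_mul, n2, one_mul, Complex.norm_real, Real.norm_eq_abs]
    have h6 : ‖(e1 - e2) * (M1 : ℂ)‖ - ‖e2 * ((M1 - M2 : ℝ) : ℂ)‖ ≤
        ‖(e1 - e2) * (M1 : ℂ) + e2 * ((M1 - M2 : ℝ) : ℂ)‖ := by
      have := norm_sub_norm_le ((e1 - e2) * (M1 : ℂ)) (-(e2 * ((M1 - M2 : ℝ) : ℂ)))
      rw [norm_neg, sub_neg_eq_add] at this
      exact this
    rw [h4, h5] at h6
    have h7 : 2 * σ * M1 ≤ 2 * |Real.sin (Real.pi * (H / q))| * |M1| := by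
      calc 2 * σ * M1 ≤ 2 * σ * |M1| := mul_le_mul_of_nonneg_left (le_abs_self _) (by linarith)
        _ ≤ _ := by gcongr
    linarith
  -- the identity
  have hid : ((q : ℂ) - 1) * I = ((q : ℂ) - 1) * (I - cq q * (e1 * A1 - e2 * A2)) +
      (cq q * (e1 * (((q : ℂ) - 1) * A1 + (M1 : ℂ)) - e2 * (((q : ℂ) - 1) * A2 + (M2 : ℂ))) -
        cq q * (e1 * (M1 : ℂ) - e2 * (M2 : ℂ))) := by ring
  have hq1n : ‖(q : ℂ) - 1‖ = q - 1 := by
    have : (q : ℂ) - 1 = (((q : ℝ) - 1 : ℝ) : ℂ) := by push_cast; ring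
    rw [this, Complex.norm_real, Real.norm_of_nonneg (by linarith)]
  have hlow : (q / (2 * Real.pi)) * ‖e1 * (M1 : ℂ) - e2 * (M2 : ℂ)‖ -
      (q / (2 * Real.pi)) * (δ1 + δ2) - (q - 1) * E ≤ (q - 1) * ‖I‖ := by
    have g1 : ‖cq q * (e1 * (M1 : ℂ) - e2 * (M2 : ℂ))‖ =
        (q / (2 * Real.pi)) * ‖e1 * (M1 : ℂ) - e2 * (M2 : ℂ)‖ := by rw [norm_mul, norm_cq]
    have g2 : ‖cq q * (e1 * (((q : ℂ) - 1) * A1 + (M1 : ℂ)) - e2 * (((q : ℂ) - 1) * A2 + (M2 : ℂ)))‖ ≤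
        (q / (2 * Real.pi)) * (δ1 + δ2) := by
      rw [norm_mul, norm_cq]
      apply mul_le_mul_of_nonneg_left _ (by positivity)
      refine (norm_sub_le _ _).trans ?_
      rw [norm_mul, norm_mul, n1, n2, one_mul, one_mul]
      exact add_le_add d1 d2
    have g3 : ‖((q : ℂ) - 1) * (I - cq q * (e1 * A1 - e2 * A2))‖ ≤ (q - 1) * E := by
      rw [norm_mul, hq1n]
      exact mul_le_mul_of_nonneg_left hII (by linarith)
    have g4 : cq q * (e1 * (M1 : ℂ) - e2 * (M2 : ℂ)) =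
        ((q : ℂ) - 1) * (I - cq q * (e1 * A1 - e2 * A2)) +
        cq q * (e1 * (((q : ℂ) - 1) * A1 + (M1 : ℂ)) - e2 * (((q : ℂ) - 1) * A2 + (M2 : ℂ))) -
        ((q : ℂ) - 1) * I := by ring
    have g5 : ‖cq q * (e1 * (M1 : ℂ) - e2 * (M2 : ℂ))‖ ≤
        ‖((q : ℂ) - 1) * (I - cq q * (e1 * A1 - e2 * A2))‖ +
        ‖cq q * (e1 * (((q : ℂ) - 1) * A1 + (M1 : ℂ)) - e2 * (((q : ℂ) - 1) * A2 + (M2 : ℂ)))‖ +
        ‖((q : ℂ) - 1) * I‖ := by
      conv_lhs => rw [g4]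
      exact (norm_sub_le _ _).trans (add_le_add_left (norm_add_le _ _) _)
    have g6 : ‖((q : ℂ) - 1) * I‖ = (q - 1) * ‖I‖ := by rw [norm_mul, hq1n]
    rw [g1, g6] at g5
    linarith
  -- division
  have hδ : 0 ≤ δ1 + δ2 := by
    have := (norm_nonneg _).trans d1
    have := (norm_nonneg _).trans d2
    linarith
  set W := 2 * σ * M1 - |M1 - M2| with hW
  have k1 : (q - 1 : ℝ) * (W / (2 * Real.pi)) ≤ (q / (2 * Real.pi)) *
      ‖e1 * (M1 : ℂ) - e2 * (M2 : ℂ)‖ := by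
    calc (q - 1 : ℝ) * (W / (2 * Real.pi)) ≤ q * (W / (2 * Real.pi)) := by
          apply mul_le_mul_of_nonneg_right (by linarith) (by positivity)
      _ = (q / (2 * Real.pi)) * W := by ring
      _ ≤ _ := mul_le_mul_of_nonneg_left hmain (by positivity)
  have k2 : (q / (2 * Real.pi)) * (δ1 + δ2) ≤ (q - 1 : ℝ) * ((δ1 + δ2) / Real.pi) := by
    have : (q : ℝ) / 2 ≤ q - 1 := by linarith
    calc (q / (2 * Real.pi)) * (δ1 + δ2) = (q / 2) * ((δ1 + δ2) / Real.pi) := by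
          field_simp
      _ ≤ _ := mul_le_mul_of_nonneg_right this (by positivity)
  have k3 : (q - 1 : ℝ) * (W / (2 * Real.pi) - (δ1 + δ2) / Real.pi - E) ≤ (q - 1) * ‖I‖ := by
    have : (q - 1 : ℝ) * (W / (2 * Real.pi) - (δ1 + δ2) / Real.pi - E) =
        (q - 1 : ℝ) * (W / (2 * Real.pi)) - (q - 1 : ℝ) * ((δ1 + δ2) / Real.pi) -
          (q - 1) * E := by ring
    rw [this]
    linarith
  exact le_of_mul_le_mul_left k3 (by linarith)

end Pool.Agent.D0H44.EL
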