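import Mathlib
import Pool.Agent.H343R2.Gauss

/-! The norm of the exponential sum over the points `1 / q`. -/

open Finset MeasureTheory

namespace Pool.Agent.D0H44.EL

open H343 (ex)

theorem ex_conj (x : ℝ) : (starRingEnd ℂ) (ex x) = ex (-x) := by
  unfold H343.ex
  rw [← Complex.exp_conj, map_mul, Complex.conj_I, Complex.conj_ofReal]
  congr 1
  push_cast
  ring

theorem ex_int_le (α X : ℝ) (hα : α ≠ 0) :
    ‖∫ x in (0 : ℝ)..X, ex (α * x)‖ ≤ 1 / (Real.pi * |α|) := by
  have hc : (2 * Real.pi * α : ℂ) * Complex.I ≠ 0 := by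
    have h1 : (α : ℂ) ≠ 0 := by exact_mod_cast hα
    have h2 : (Real.pi : ℂ) ≠ 0 := by exact_mod_cast Real.pi_ne_zero
    simp [h1, h2]
  have h1 : ∫ x in (0 : ℝ)..X, ex (α * x) = ∫ x in (0 : ℝ)..X,
      Complex.exp (((2 * Real.pi * α : ℂ) * Complex.I) * x) := by
    apply intervalIntegral.integral_congr
    intro x _
    simp only
    unfold H343.ex
    congr 1
    push_cast
    ring
  rw [h1, integral_exp_mul_complex hc, norm_div]
  have h2 : ‖(2 * Real.pi * α : ℂ) * Complex.I‖ = 2 * Real.pi * |α| := by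
    have : (2 * Real.pi * α : ℂ) = ((2 * Real.pi * α : ℝ) : ℂ) := by push_cast; ring
    rw [this, norm_mul, Complex.norm_I, mul_one, Complex.norm_real, Real.norm_eq_abs, abs_mul,
      abs_of_pos (by positivity)]
  have hen : ∀ y : ℝ, ‖Complex.exp (((2 * Real.pi * α : ℂ) * Complex.I) * y)‖ = 1 := by
    intro y
    have : ((2 * Real.pi * α : ℂ) * Complex.I) * y = ((2 * Real.pi * α * y : ℝ) : ℂ) * Complex.I := by
      push_cast; ring
    rw [this, Complex.norm_exp_ofReal_mul_I]
  rw [h2]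
  have h3 : ‖Complex.exp (((2 * Real.pi * α : ℂ) * Complex.I) * X) -
      Complex.exp (((2 * Real.pi * α : ℂ) * Complex.I) * (0 : ℝ))‖ ≤ 2 := by
    refine (norm_sub_le _ _).trans ?_
    rw [hen, hen]
    norm_num
  have hα0 : 0 < |α| := abs_pos.2 hα
  have hpi := Real.pi_pos
  calc _ ≤ 2 / (2 * Real.pi * |α|) := by gcongr
    _ = _ := by field_simp

theorem norm_sq_int (G : Finset ℕ) (Q : ℕ) (hG : ∀ q ∈ G, Q < q ∧ q ≤ 2 * Q) (c : ℕ → ℂ)
    (hc : ∀ q ∈ G, ‖c q‖ ≤ 1) (X : ℝ) (hX : 0 ≤ X) :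
    ∫ x in (0 : ℝ)..X, ‖∑ q ∈ G, c q * ex (x / q)‖ ^ 2 ≤
      G.card * (X + G.card * (4 * (Q : ℝ) ^ 2)) := by
  have hcont : ∀ q : ℕ, Continuous (fun x : ℝ => ex (x / q)) := by
    intro q
    unfold H343.ex
    fun_prop
  have h1 : ∀ x : ℝ, ((‖∑ q ∈ G, c q * ex (x / q)‖ ^ 2 : ℝ) : ℂ) =
      ∑ q ∈ G, ∑ r ∈ G, (c q * (starRingEnd ℂ) (c r)) * ex ((1 / q - 1 / r) * x) := by
    intro x
    push_cast
    rw [← Complex.mul_conj', map_sum, sum_mul_sum]
    apply sum_congr rfl
    intro q _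
    apply sum_congr rfl
    intro r _
    rw [map_mul, ex_conj]
    have : ex ((1 / q - 1 / r) * x) = ex (x / q) * ex (-(x / r)) := by
      rw [← H343.Gauss.ex_add]
      congr 1
      ring
    rw [this]
    ring
  have h2 : ((∫ x in (0 : ℝ)..X, ‖∑ q ∈ G, c q * ex (x / q)‖ ^ 2 : ℝ) : ℂ) =
      ∑ q ∈ G, ∑ r ∈ G, (c q * (starRingEnd ℂ) (c r)) *
        ∫ x in (0 : ℝ)..X, ex ((1 / q - 1 / r) * x) := by
    rw [← intervalIntegral.integral_ofReal]
    simp_rw [h1]
    have hci : ∀ q r : ℕ, IntervalIntegrable (fun x : ℝ => (c q * (starRingEnd ℂ) (c r)) *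
        ex ((1 / q - 1 / r) * x)) volume 0 X := by
      intro q r
      apply Continuous.intervalIntegrable
      unfold H343.ex
      fun_prop
    rw [intervalIntegral.integral_finsetSum]
    · apply sum_congr rfl
      intro q _
      rw [intervalIntegral.integral_finsetSum]
      · apply sum_congr rfl
        intro r _
        rw [intervalIntegral.integral_const_mul]
      · intro r _
        exact hci q r
    · intro q _
      apply Continuous.intervalIntegrable
      apply continuous_finsetSum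
      intro r _
      unfold H343.ex
      fun_prop
  have h3 : ∀ q ∈ G, ∀ r ∈ G, ‖(c q * (starRingEnd ℂ) (c r)) *
        ∫ x in (0 : ℝ)..X, ex ((1 / q - 1 / r) * x)‖ ≤
        (if q = r then X else 0) + 4 * (Q : ℝ) ^ 2 := by
    intro q hq r hr
    have hcc : ‖c q * (starRingEnd ℂ) (c r)‖ ≤ 1 := by
      rw [norm_mul, RCLike.norm_conj]
      exact mul_le_one₀ (hc q hq) (norm_nonneg _) (hc r hr)
    rw [norm_mul]
    have hI : ‖∫ x in (0 : ℝ)..X, ex ((1 / q - 1 / r) * x)‖ ≤
        (if q = r then X else 0) + 4 * (Q : ℝ) ^ 2 := by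
      by_cases h : q = r
      · rw [if_pos h]
        refine (intervalIntegral.norm_integral_le_of_norm_le_const (C := 1) ?_).trans ?_
        · intro x _
          rw [H343.Gauss.norm_ex]
        · rw [one_mul, sub_zero, abs_of_nonneg hX]
          have : 0 ≤ 4 * (Q : ℝ) ^ 2 := by positivity
          linarith
      · rw [if_neg h, zero_add]
        obtain ⟨q1, q2⟩ := hG q hq
        obtain ⟨r1, r2⟩ := hG r hr
        have hq0 : (0 : ℝ) < q := by exact_mod_cast (by omega : 0 < q)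
        have hr0 : (0 : ℝ) < r := by exact_mod_cast (by omega : 0 < r)
        have hqr : (1 : ℝ) ≤ |(r : ℝ) - q| := by
          have : (r : ℤ) - q ≠ 0 := by
            intro h'
            apply h
            omega
          have := Int.one_le_abs this
          exact_mod_cast this
        have e1 : (1 / (q : ℝ) - 1 / r) = ((r : ℝ) - q) / (q * r) := by
          field_simp
        have hα : (1 / (q : ℝ) - 1 / r) ≠ 0 := by
          rw [e1]
          apply div_ne_zero
          · intro h'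
            rw [h'] at hqr
            simp at hqr
            linarith
          · positivity
        refine (ex_int_le _ X hα).trans ?_
        rw [e1, abs_div, abs_of_pos (by positivity : (0 : ℝ) < q * r)]
        have hq2 : (q : ℝ) ≤ 2 * Q := by exact_mod_cast q2
        have hr2 : (r : ℝ) ≤ 2 * Q := by exact_mod_cast r2
        have hpi := Real.pi_gt_three
        have hqr2 : (q : ℝ) * r ≤ 4 * (Q : ℝ) ^ 2 := by
          calc (q : ℝ) * r ≤ (2 * Q) * (2 * Q) := by gcongr
            _ = _ := by ring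
        have hden : 1 ≤ Real.pi * |(r : ℝ) - q| := by nlinarith
        have e2 : 1 / (Real.pi * (|(r : ℝ) - q| / (q * r))) =
            (q * r) / (Real.pi * |(r : ℝ) - q|) := by
          have : |(r : ℝ) - q| ≠ 0 := by linarith
          field_simp
        rw [e2]
        calc (q * r : ℝ) / (Real.pi * |(r : ℝ) - q|) ≤ (q * r : ℝ) / 1 := by
              apply div_le_div_of_nonneg_left (by positivity) (by norm_num) hden
          _ ≤ _ := by rw [div_one]; exact hqr2
    calc ‖c q * (starRingEnd ℂ) (c r)‖ * ‖∫ x in (0 : ℝ)..X, ex ((1 / q - 1 / r) * x)‖ ≤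
        1 * ‖∫ x in (0 : ℝ)..X, ex ((1 / q - 1 / r) * x)‖ := by gcongr
      _ ≤ _ := by rw [one_mul]; exact hI
  have h4 : (∫ x in (0 : ℝ)..X, ‖∑ q ∈ G, c q * ex (x / q)‖ ^ 2) ≤
      ∑ q ∈ G, ∑ r ∈ G, ((if q = r then X else 0) + 4 * (Q : ℝ) ^ 2) := by
    calc (∫ x in (0 : ℝ)..X, ‖∑ q ∈ G, c q * ex (x / q)‖ ^ 2) ≤
        ‖((∫ x in (0 : ℝ)..X, ‖∑ q ∈ G, c q * ex (x / q)‖ ^ 2 : ℝ) : ℂ)‖ := by
          rw [Complex.norm_real]
          exact le_abs_self _
      _ ≤ ∑ q ∈ G, ∑ r ∈ G, ‖(c q * (starRingEnd ℂ) (c r)) *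
        ∫ x in (0 : ℝ)..X, ex ((1 / q - 1 / r) * x)‖ := by
          rw [h2]
          refine (norm_sum_le _ _).trans (sum_le_sum fun q _ => norm_sum_le _ _)
      _ ≤ _ := sum_le_sum fun q hq => sum_le_sum fun r hr => h3 q hq r hr
  refine h4.trans (le_of_eq ?_)
  simp_rw [sum_add_distrib, sum_ite_eq]
  have e3 : ∑ q ∈ G, (if q ∈ G then X else 0) = G.card * X := by
    rw [← nsmul_eq_mul, ← sum_const]
    exact sum_congr rfl fun q hq => by rw [if_pos hq]
  rw [e3]
  simp only [sum_const, nsmul_eq_mul]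
  ring

end Pool.Agent.D0H44.EL
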