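import Mathlib
import Pool.Agent.D0H44.EL.Inner
import Pool.Agent.D0H44.EL.Nrm
import Pool.Agent.H321R3.VP.Main

/-! Duality: the sum of the inner products against the mean square. -/

open Finset MeasureTheory

namespace Pool.Agent.D0H44.EL

open H343 (ex)
open H321VP (DD)

theorem DD_sq_int (M : ℕ) (H a b : ℝ) : IntegrableOn (fun x => DD M H x ^ 2) (Set.Icc a b) := by
  refine Measure.integrableOn_of_bounded (M := ((∑ n ∈ Icc 1 M,
    ArithmeticFunction.vonMangoldt n) + |H|) ^ 2) measure_Icc_lt_top.ne
    ((H321VP.DD_meas M H).pow_const 2).aestronglyMeasurable ?_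
  refine Filter.Eventually.of_forall fun y => ?_
  rw [Real.norm_eq_abs, abs_pow]
  have := H321VP.DD_bound M H y
  gcongr

theorem cs_arith (S A B : ℝ) (hA : 0 ≤ A) (hS : 0 ≤ S) (hB : 0 ≤ B)
    (h : ∀ l : ℝ, 0 < l → 2 * S ≤ l * A + B / l) : S ^ 2 ≤ A * B := by
  rcases hS.eq_or_lt with h0 | h0
  · rw [← h0]
    simp only [ne_eq, OfNat.ofNat_ne_zero, not_false_eq_true, zero_pow]
    positivity
  rcases hB.eq_or_lt with hB0 | hB0
  · exfalso
    have h1 := h (S / (A + 1)) (by positivity)
    rw [← hB0, zero_div, add_zero] at h1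
    have h2 : S / (A + 1) * A ≤ S := by
      rw [div_mul_eq_mul_div, div_le_iff₀ (by linarith)]
      nlinarith
    linarith
  · have h1 := h (B / S) (by positivity)
    have h2 : B / (B / S) = S := by field_simp
    rw [h2] at h1
    have h3 : S ≤ B / S * A := by linarith
    have h4 : S * S ≤ B / S * A * S := mul_le_mul_of_nonneg_right h3 h0.le
    have h5 : B / S * A * S = A * B := by field_simp
    rw [h5] at h4
    nlinarith

theorem dual_sum (M : ℕ) (H m D X : ℝ) (hD : 0 < D) (h1 : 0 ≤ m - D) (h2 : m + D ≤ X)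
    (G : Finset ℕ) (Q : ℕ) (hG : ∀ q ∈ G, Q < q ∧ q ≤ 2 * Q) :
    (∑ q ∈ G, ‖II M H m D q‖) ^ 2 ≤ (∫ x in Set.Icc (m - D) (m + D), DD M H x ^ 2) *
      (G.card * (X + G.card * (4 * (Q : ℝ) ^ 2))) := by
  have hX : 0 ≤ X := by linarith
  -- phases
  set c : ℕ → ℂ := fun q => (starRingEnd ℂ) (II M H m D q) / ‖II M H m D q‖ with hc
  have hc1 : ∀ q, ‖c q‖ ≤ 1 := by
    intro q
    rw [hc]
    simp only
    rw [norm_div, RCLike.norm_conj, Complex.norm_real, norm_norm]
    exact div_self_le_one _
  have hc2 : ∀ q, c q * II M H m D q = (‖II M H m D q‖ : ℂ) := by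
    intro q
    rw [hc]
    simp only
    by_cases h0 : II M H m D q = 0
    · rw [h0]; simp
    · have : (‖II M H m D q‖ : ℂ) ≠ 0 := by
        exact_mod_cast (norm_ne_zero_iff.2 h0)
      rw [div_mul_eq_mul_div, Complex.conj_mul', sq, mul_div_assoc, div_self this, mul_one]
  set F : ℝ → ℂ := fun x => ∑ q ∈ G, c q * ex (x / q) with hF
  have hFc : Continuous F := by
    rw [hF]
    apply continuous_finsetSum
    intro q _
    unfold H343.ex
    fun_prop
  set A := ∫ x in Set.Icc (m - D) (m + D), DD M H x ^ 2 with hA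
  set B := G.card * (X + G.card * (4 * (Q : ℝ) ^ 2)) with hB
  have hB0 : 0 ≤ B := by positivity
  have hA0 : 0 ≤ A := by
    apply integral_nonneg
    intro x
    positivity
  have hDi := DD_sq_int M H (m - D) (m + D)
  have hFi : IntegrableOn (fun x => ‖F x‖ ^ 2) (Set.Icc (m - D) (m + D)) :=
    (hFc.norm.pow 2).continuousOn.integrableOn_Icc
  -- the sum as an integral
  have hmeas : Measurable (DD M H) := H321VP.DD_meas M H
  have hint : ∀ q, IntegrableOn (fun x => ((DD M H x : ℝ) : ℂ) * gt m D q x)
      (Set.Icc (m - D) (m + D)) := by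
    intro q
    obtain ⟨K, hK⟩ := (isCompact_Icc (a := m - D) (b := m + D)).exists_bound_of_continuousOn
      (gt_cont m D q).continuousOn
    refine Measure.integrableOn_of_bounded (M := ((∑ n ∈ Icc 1 M,
      ArithmeticFunction.vonMangoldt n) + |H|) * K) measure_Icc_lt_top.ne ?_ ?_
    · exact (Complex.measurable_ofReal.comp hmeas).aestronglyMeasurable.mul
        (gt_cont m D q).aestronglyMeasurable
    · rw [ae_restrict_iff' measurableSet_Icc]
      refine Filter.Eventually.of_forall fun y hy => ?_
      rw [norm_mul, Complex.norm_real, Real.norm_eq_abs]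
      have g1 := H321VP.DD_bound M H y
      have g2 := hK y hy
      exact mul_le_mul g1 g2 (norm_nonneg _) ((abs_nonneg _).trans g1)
  have hS : ((∑ q ∈ G, ‖II M H m D q‖ : ℝ) : ℂ) =
      ∫ x in Set.Icc (m - D) (m + D), ((DD M H x : ℝ) : ℂ) * (((kt m D x : ℝ) : ℂ) * F x) := by
    push_cast
    calc ∑ q ∈ G, (‖II M H m D q‖ : ℂ) = ∑ q ∈ G, c q * II M H m D q :=
          sum_congr rfl fun q _ => (hc2 q).symm
      _ = ∑ q ∈ G, ∫ x in Set.Icc (m - D) (m + D), c q * (((DD M H x : ℝ) : ℂ) * gt m D q x) := by
          apply sum_congr rfl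
          intro q _
          rw [integral_const_mul]
          rfl
      _ = ∫ x in Set.Icc (m - D) (m + D), ∑ q ∈ G, c q * (((DD M H x : ℝ) : ℂ) * gt m D q x) := by
          rw [integral_finsetSum]
          intro q _
          exact (hint q).const_mul _
      _ = _ := by
          apply integral_congr_ae
          refine Filter.Eventually.of_forall fun x => ?_
          simp only
          rw [hF]
          simp only
          rw [mul_sum, mul_sum]
          apply sum_congr rfl
          intro q _
          unfold gt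
          ring
  have hS1 : ∑ q ∈ G, ‖II M H m D q‖ ≤
      ∫ x in Set.Icc (m - D) (m + D), |DD M H x| * ‖F x‖ := by
    calc ∑ q ∈ G, ‖II M H m D q‖ ≤ ‖((∑ q ∈ G, ‖II M H m D q‖ : ℝ) : ℂ)‖ := by
          rw [Complex.norm_real]; exact le_abs_self _
      _ ≤ ∫ x in Set.Icc (m - D) (m + D), ‖((DD M H x : ℝ) : ℂ) * (((kt m D x : ℝ) : ℂ) * F x)‖ := by
          rw [hS]
          exact norm_integral_le_integral_norm _
      _ ≤ _ := by
          apply integral_mono_of_nonneg
          · exact Filter.Eventually.of_forall fun x => norm_nonneg _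
          · obtain ⟨K, hK⟩ := (isCompact_Icc (a := m - D) (b := m + D)).exists_bound_of_continuousOn
              hFc.continuousOn
            refine Measure.integrableOn_of_bounded (M := ((∑ n ∈ Icc 1 M,
              ArithmeticFunction.vonMangoldt n) + |H|) * K) measure_Icc_lt_top.ne ?_ ?_
            · exact (continuous_abs.measurable.comp hmeas).aestronglyMeasurable.mul
                hFc.norm.aestronglyMeasurable
            · rw [ae_restrict_iff' measurableSet_Icc]
              refine Filter.Eventually.of_forall fun y hy => ?_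
              rw [norm_mul, norm_norm, Real.norm_eq_abs, abs_abs]
              have g1 := H321VP.DD_bound M H y
              have g2 := hK y hy
              exact mul_le_mul g1 g2 (norm_nonneg _) ((abs_nonneg _).trans g1)
          · refine Filter.Eventually.of_forall fun x => ?_
            simp only
            rw [norm_mul, norm_mul, Complex.norm_real, Complex.norm_real, Real.norm_eq_abs,
              Real.norm_eq_abs, abs_of_nonneg (kt_nonneg m D x hD)]
            have := kt_le_one m D x hD
            have h3 : kt m D x * ‖F x‖ ≤ 1 * ‖F x‖ := by gcongr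
            rw [one_mul] at h3
            gcongr
  have hBF : ∫ x in Set.Icc (m - D) (m + D), ‖F x‖ ^ 2 ≤ B := by
    have h3 := norm_sq_int G Q hG c (fun q _ => hc1 q) X hX
    refine le_trans ?_ h3
    rw [intervalIntegral.integral_of_le hX, ← integral_Icc_eq_integral_Ioc]
    apply setIntegral_mono_set
    · exact (hFc.norm.pow 2).continuousOn.integrableOn_Icc
    · exact Filter.Eventually.of_forall fun x => by positivity
    · exact (Set.Icc_subset_Icc h1 h2).eventuallyLE
  apply cs_arith _ _ _ hA0 (sum_nonneg fun _ _ => norm_nonneg _) hB0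
  intro l hl
  have h3 : 2 * ∫ x in Set.Icc (m - D) (m + D), |DD M H x| * ‖F x‖ ≤ l * A + (1 / l) *
      ∫ x in Set.Icc (m - D) (m + D), ‖F x‖ ^ 2 := by
    rw [hA, ← integral_const_mul, ← integral_const_mul, ← integral_const_mul, ← integral_add]
    · apply integral_mono_of_nonneg
      · exact Filter.Eventually.of_forall fun x => by positivity
      · exact (hDi.const_mul l).add (hFi.const_mul (1 / l))
      · refine Filter.Eventually.of_forall fun x => ?_
        simp only
        have h4 : 0 ≤ (l * |DD M H x| - ‖F x‖) ^ 2 / l := by positivity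
        have h5 : (l * |DD M H x| - ‖F x‖) ^ 2 / l = l * DD M H x ^ 2 + 1 / l * ‖F x‖ ^ 2 -
            2 * (|DD M H x| * ‖F x‖) := by
          rw [← sq_abs (DD M H x)]
          field_simp
          ring
        linarith
    · exact hDi.const_mul l
    · exact hFi.const_mul (1 / l)
  have h6 : (1 / l) * ∫ x in Set.Icc (m - D) (m + D), ‖F x‖ ^ 2 ≤ B / l := by
    rw [div_mul_eq_mul_div, one_mul]
    gcongr
  linarith

end Pool.Agent.D0H44.EL
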