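import Mathlib
import Pool.Agent.Helper923.PNT

/-! Counting primes in dyadic ranges, and the primes `q` with `H / q` close to an integer. -/

open Finset

namespace Pool.Agent.D0H44.EL

/-- Jordan's inequality. -/
theorem sin_ge (x : ℝ) : 2 * |x - round x| ≤ |Real.sin (Real.pi * x)| := by
  have hpi := Real.pi_pos
  have h1 : |Real.pi * (x - round x)| ≤ Real.pi / 2 := by
    rw [abs_mul, abs_of_pos hpi]
    have := abs_sub_round x
    calc Real.pi * |x - round x| ≤ Real.pi * (1 / 2) := by gcongr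
      _ = _ := by ring
  have h2 := Real.mul_abs_le_abs_sin h1
  have h3 : Real.pi * (x - round x) = Real.pi * x - (round x : ℤ) * Real.pi := by ring
  rw [h3, Real.sin_sub_int_mul_pi, abs_mul, abs_zpow, abs_neg, abs_one, one_zpow, one_mul,
    ← h3, abs_mul, abs_of_pos hpi] at h2
  calc 2 * |x - round x| = 2 / Real.pi * (Real.pi * |x - round x|) := by field_simp
    _ ≤ _ := h2

/-- few prime factors exceeding `Q` -/
theorem few_factors (Q N : ℕ) (hN : 1 ≤ N) (hQ : N < Q ^ 5) :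
    ((Ioc Q (2 * Q)).filter (fun q : ℕ => q.Prime ∧ q ∣ N)).card ≤ 4 := by
  by_contra hc
  push Not at hc
  obtain ⟨T, hT, hTc⟩ := exists_subset_card_eq (s := (Ioc Q (2 * Q)).filter
    (fun q : ℕ => q.Prime ∧ q ∣ N)) (n := 5) (by omega)
  have h1 : ∏ q ∈ T, q ∣ N := by
    apply Finset.prod_primes_dvd
    · intro q hq
      exact (mem_filter.1 (hT hq)).2.1.prime
    · intro q hq
      exact (mem_filter.1 (hT hq)).2.2
  have h2 : ∏ q ∈ T, q ≤ N := Nat.le_of_dvd (by omega) h1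
  have h3 : Q ^ 5 ≤ ∏ q ∈ T, q := by
    rw [← hTc]
    calc Q ^ T.card = ∏ _q ∈ T, Q := by rw [prod_const]
      _ ≤ _ := prod_le_prod' fun q hq => (mem_Ioc.1 (mem_filter.1 (hT hq)).1).1.le
  omega

/-- the bad primes -/
theorem bad_count (Q : ℕ) (H X κ : ℝ) (hκ : 0 < κ) (hκ1 : κ ≤ 1 / 2) (hQH : 4 * (Q : ℝ) ≤ H)
    (hQ : 1 ≤ Q) (hHX : H ≤ X) (hQX : 2 * X < (Q : ℝ) ^ 5) :
    ((Ioc Q (2 * Q)).filter (fun q : ℕ => q.Prime ∧
      ¬ 2 * κ ≤ |Real.sin (Real.pi * (H / q))|)).card ≤ 4 * (4 * κ * Q + 1) := by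
  have hQ0 : (1 : ℝ) ≤ Q := by exact_mod_cast hQ
  have hlow : 0 ≤ H - 2 * κ * Q := by nlinarith
  set W : Finset ℕ := Icc ⌈H - 2 * κ * Q⌉₊ ⌊H + 2 * κ * Q⌋₊ with hW
  have hsub : (Ioc Q (2 * Q)).filter (fun q : ℕ => q.Prime ∧
      ¬ 2 * κ ≤ |Real.sin (Real.pi * (H / q))|) ⊆
      W.biUnion (fun N => (Ioc Q (2 * Q)).filter (fun q : ℕ => q.Prime ∧ q ∣ N)) := by
    intro q hq
    rw [mem_filter, mem_Ioc] at hq
    obtain ⟨⟨q1, q2⟩, hqp, hqs⟩ := hq
    have hq0 : (0 : ℝ) < q := by exact_mod_cast (by omega : 0 < q)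
    have hq2 : (q : ℝ) ≤ 2 * Q := by exact_mod_cast q2
    push Not at hqs
    have h1 : |H / q - round (H / q)| < κ := by
      have := sin_ge (H / q)
      linarith
    have h2 : 2 ≤ H / q := by
      rw [le_div_iff₀ hq0]
      linarith
    have h3 : (1 : ℝ) < (round (H / q) : ℤ) := by
      rw [abs_lt] at h1
      linarith [h1.2]
    have h4 : (1 : ℤ) < round (H / q) := by exact_mod_cast h3
    obtain ⟨n, hn⟩ := Int.eq_ofNat_of_zero_le (by omega : 0 ≤ round (H / q))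
    have h5 : |H - (n : ℝ) * q| < κ * q := by
      have e1 : H - (n : ℝ) * q = (H / q - round (H / q)) * q := by
        rw [hn]
        push_cast
        field_simp
      rw [e1, abs_mul, abs_of_pos hq0]
      exact mul_lt_mul_of_pos_right h1 hq0
    have h6 : |H - (n : ℝ) * q| ≤ 2 * κ * Q := by
      have : κ * q ≤ κ * (2 * Q) := mul_le_mul_of_nonneg_left hq2 hκ.le
      linarith
    rw [abs_le] at h6
    rw [mem_biUnion]
    refine ⟨n * q, ?_, ?_⟩
    · rw [hW, mem_Icc]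
      constructor
      · apply Nat.ceil_le.2
        push_cast
        linarith [h6.2]
      · apply Nat.le_floor
        push_cast
        linarith [h6.1]
    · rw [mem_filter, mem_Ioc]
      exact ⟨⟨q1, q2⟩, hqp, Dvd.intro_left n rfl⟩
  have hWc : (W.card : ℝ) ≤ 4 * κ * Q + 1 := by
    rw [hW, Nat.card_Icc]
    have h1 : (⌊H + 2 * κ * Q⌋₊ : ℝ) ≤ H + 2 * κ * Q := Nat.floor_le (by linarith [mul_pos (mul_pos two_pos hκ) (by linarith : (0:ℝ) < Q)])
    have h2 : H - 2 * κ * Q ≤ ⌈H - 2 * κ * Q⌉₊ := Nat.le_ceil _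
    by_cases hc : ⌈H - 2 * κ * Q⌉₊ ≤ ⌊H + 2 * κ * Q⌋₊ + 1
    · rw [Nat.cast_sub hc]
      push_cast
      linarith
    · push Not at hc
      rw [Nat.sub_eq_zero_of_le hc.le]
      push_cast
      positivity
  have hfew : ∀ N ∈ W, ((Ioc Q (2 * Q)).filter (fun q : ℕ => q.Prime ∧ q ∣ N)).card ≤ 4 := by
    intro N hN
    rw [hW, mem_Icc] at hN
    have h1 : 1 ≤ N := by
      refine le_trans ?_ hN.1
      apply Nat.one_le_ceil_iff.2
      nlinarith
    apply few_factors Q N h1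
    have h2 : (N : ℝ) ≤ H + 2 * κ * Q :=
      (Nat.cast_le.2 hN.2).trans (Nat.floor_le (by linarith [mul_pos (mul_pos two_pos hκ) (by linarith : (0:ℝ) < Q)]))
    have h3 : (N : ℝ) < (Q : ℝ) ^ 5 := by
      have : 2 * κ * Q ≤ H := by nlinarith
      linarith
    exact_mod_cast h3
  calc (((Ioc Q (2 * Q)).filter (fun q : ℕ => q.Prime ∧
      ¬ 2 * κ ≤ |Real.sin (Real.pi * (H / q))|)).card : ℝ) ≤
      ((W.biUnion (fun N => (Ioc Q (2 * Q)).filter (fun q : ℕ => q.Prime ∧ q ∣ N))).card : ℝ) := by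
        exact_mod_cast card_le_card hsub
    _ ≤ ((∑ N ∈ W, ((Ioc Q (2 * Q)).filter (fun q : ℕ => q.Prime ∧ q ∣ N)).card : ℕ) : ℝ) := by
        exact_mod_cast card_biUnion_le
    _ ≤ ((∑ _N ∈ W, 4 : ℕ) : ℝ) := by exact_mod_cast sum_le_sum hfew
    _ = 4 * (W.card : ℝ) := by rw [sum_const, smul_eq_mul]; push_cast; ring
    _ ≤ _ := by linarith

/-- the prime number theorem with constants -/
theorem psi_bds (η : ℝ) (hη : 0 < η) : ∃ C : ℝ, 0 ≤ C ∧ ∀ x : ℝ, 0 ≤ x →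
    (1 - η) * x - C ≤ Chebyshev.psi x ∧ Chebyshev.psi x ≤ (1 + η) * x + C := by
  have h := Pool.Agent.Helper923.PNT.psi_div_tendsto
  rw [Metric.tendsto_atTop] at h
  obtain ⟨N, hN⟩ := h η hη
  refine ⟨max (Chebyshev.psi (max N 1)) (max N 1), ?_, ?_⟩
  · exact le_max_of_le_right (by positivity)
  intro x hx
  by_cases hxN : max N 1 ≤ x
  · have h1 := hN x ((le_max_left _ _).trans hxN)
    have hx0 : 0 < x := by
      have := (le_max_right N 1).trans hxN
      linarith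
    rw [Real.dist_eq, abs_lt] at h1
    have e1 : Chebyshev.psi x = Chebyshev.psi x / x * x := by field_simp
    have hC : 0 ≤ max (Chebyshev.psi (max N 1)) (max N 1) := le_max_of_le_right (by positivity)
    constructor
    · rw [e1]
      nlinarith [h1.1]
    · rw [e1]
      nlinarith [h1.2]
  · push Not at hxN
    have h1 : Chebyshev.psi x ≤ Chebyshev.psi (max N 1) := Chebyshev.psi_mono hxN.le
    have h2 := Chebyshev.psi_nonneg x
    have h3 := le_max_left (Chebyshev.psi (max N 1)) (max N 1)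
    have h4 := le_max_right (Chebyshev.psi (max N 1)) (max N 1)
    constructor
    · nlinarith
    · nlinarith

/-- primes in dyadic ranges -/
theorem primes_dyadic : ∃ Q₀ : ℕ, 1 ≤ Q₀ ∧ ∀ Q : ℕ, Q₀ ≤ Q →
    (Q : ℝ) / 2 ≤ ((Ioc Q (2 * Q)).filter Nat.Prime).card * Real.log (2 * Q) := by
  obtain ⟨C, hC0, hC⟩ := psi_bds (1 / 16) (by norm_num)
  -- `2 √(2Q) log (2Q) + 2 C ≤ Q / 4` for large `Q`
  have h1 : ∀ᶠ x : ℝ in Filter.atTop, 2 * Real.sqrt x * Real.log x ≤ x / 32 := by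
    have h := (isLittleO_log_rpow_atTop (by norm_num : (0 : ℝ) < 1 / 2)).bound
      (by norm_num : (0 : ℝ) < 1 / 64)
    filter_upwards [h, Filter.eventually_ge_atTop 1] with x hx hx1
    have hx0 : 0 ≤ x := by linarith
    rw [Real.norm_of_nonneg (Real.log_nonneg hx1), Real.norm_of_nonneg (by positivity),
      ← Real.sqrt_eq_rpow] at hx
    have hs := Real.sq_sqrt hx0
    have hs0 := Real.sqrt_nonneg x
    calc 2 * Real.sqrt x * Real.log x ≤ 2 * Real.sqrt x * (1 / 64 * Real.sqrt x) := by gcongr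
      _ = Real.sqrt x ^ 2 / 32 := by ring
      _ = _ := by rw [hs]
  have h2 : ∀ᶠ Q : ℕ in Filter.atTop, 2 * Real.sqrt (2 * Q : ℝ) * Real.log (2 * Q : ℝ) ≤
      (2 * Q : ℝ) / 32 :=
    (tendsto_natCast_atTop_atTop.const_mul_atTop (by norm_num : (0 : ℝ) < 2)).eventually h1
  have h3 : ∀ᶠ Q : ℕ in Filter.atTop, 16 * C ≤ (Q : ℝ) :=
    tendsto_natCast_atTop_atTop.eventually_ge_atTop (16 * C)
  obtain ⟨Q₀, hQ₀⟩ := Filter.eventually_atTop.1 (h2.and h3)
  refine ⟨max Q₀ 1, le_max_right _ _, fun Q hQ => ?_⟩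
  obtain ⟨g2, g3⟩ := hQ₀ Q ((le_max_left _ _).trans hQ)
  have hQ1 : 1 ≤ Q := (le_max_right _ _).trans hQ
  have hQr : (1 : ℝ) ≤ Q := by exact_mod_cast hQ1
  have k1 : Chebyshev.theta Q ≤ (1 + 1 / 16) * Q + C :=
    (Chebyshev.theta_le_psi _).trans (hC Q (by linarith)).2
  have k2 : (1 - 1 / 16) * (2 * Q : ℝ) - C - 2 * Real.sqrt (2 * Q : ℝ) * Real.log (2 * Q : ℝ) ≤
      Chebyshev.theta (2 * Q : ℝ) := by
    have a1 := Chebyshev.psi_sub_theta_le (x := (2 * Q : ℝ)) (by linarith)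
    have a2 := (hC (2 * Q : ℝ) (by linarith)).1
    linarith
  have k3 : Chebyshev.theta (2 * Q : ℝ) - Chebyshev.theta Q =
      ∑ p ∈ (Ioc Q (2 * Q)).filter Nat.Prime, Real.log p := by
    have e1 : ⌊(2 * Q : ℝ)⌋₊ = 2 * Q := by
      have : (2 * Q : ℝ) = ((2 * Q : ℕ) : ℝ) := by push_cast; ring
      rw [this, Nat.floor_natCast]
    unfold Chebyshev.theta
    rw [e1, Nat.floor_natCast]
    rw [sub_eq_iff_eq_add]
    rw [← sum_union]
    · congr 1
      ext p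
      simp only [mem_filter, mem_union, mem_Ioc]
      constructor
      · rintro ⟨⟨a, b⟩, c⟩
        by_cases hp : p ≤ Q
        · exact Or.inr ⟨⟨a, hp⟩, c⟩
        · exact Or.inl ⟨⟨by omega, b⟩, c⟩
      · rintro (⟨⟨a, b⟩, c⟩ | ⟨⟨a, b⟩, c⟩)
        · exact ⟨⟨by omega, b⟩, c⟩
        · exact ⟨⟨a, by omega⟩, c⟩
    · rw [disjoint_left]
      intro p hp hp'
      rw [mem_filter, mem_Ioc] at hp hp'
      omega
  have k4 : ∑ p ∈ (Ioc Q (2 * Q)).filter Nat.Prime, Real.log p ≤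
      ((Ioc Q (2 * Q)).filter Nat.Prime).card * Real.log (2 * Q) := by
    rw [← nsmul_eq_mul, ← sum_const]
    apply sum_le_sum
    intro p hp
    rw [mem_filter, mem_Ioc] at hp
    apply Real.log_le_log
    · exact_mod_cast (by omega : 0 < p)
    · exact_mod_cast hp.1.2
  rw [← k3] at k4
  linarith

end Pool.Agent.D0H44.EL
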