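import Mathlib
import Pool.Agent.D0H44.EL.CS
import Pool.Agent.D0H44.EL.Eng
import Pool.Agent.D0H44.EL.Count

/-! Bounds for the pieces. -/

open Finset MeasureTheory

namespace Pool.Agent.D0H44.EL

open H343 (ex)
open H321VP (DD)
open Pool.Agent.H398R2.BV Pool.Agent.H410R2

theorem psi_Icc (M : ℕ) : ∑ n ∈ Icc 1 M, ArithmeticFunction.vonMangoldt n = Chebyshev.psi M := by
  unfold Chebyshev.psi
  rw [Nat.floor_natCast]
  apply sum_congr _ fun _ _ => rfl
  ext n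
  simp only [mem_Icc, mem_Ioc]
  omega

theorem Mh_lower (M : ℕ) (m D h : ℝ) (hD : 0 < D) (h1 : 0 ≤ m - D / 2 - h)
    (h2 : m + D / 2 - h ≤ M) :
    (Chebyshev.psi (m + D / 2 - h) - Chebyshev.psi (m - D / 2 - h)) / 2 ≤ Mh M m D h := by
  set a := m - D / 2 - h with ha
  set b := m + D / 2 - h with hb
  have hab : a ≤ b := by rw [ha, hb]; linarith
  have hfl : ⌊a⌋₊ ≤ ⌊b⌋₊ := Nat.floor_le_floor hab
  have hbM : ⌊b⌋₊ ≤ M := Nat.floor_le_of_le h2
  have e1 : Chebyshev.psi b - Chebyshev.psi a =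
      ∑ n ∈ Ioc ⌊a⌋₊ ⌊b⌋₊, ArithmeticFunction.vonMangoldt n := by
    unfold Chebyshev.psi
    rw [sub_eq_iff_eq_add, ← sum_union]
    · congr 1
      ext n
      simp only [mem_union, mem_Ioc]
      omega
    · rw [disjoint_left]
      intro p hp hp'
      rw [mem_Ioc] at hp hp'
      omega
  rw [e1]
  unfold Mh
  have hsub : Ioc ⌊a⌋₊ ⌊b⌋₊ ⊆ Icc 1 M := by
    intro n hn
    rw [mem_Ioc] at hn
    rw [mem_Icc]
    omega
  calc (∑ n ∈ Ioc ⌊a⌋₊ ⌊b⌋₊, ArithmeticFunction.vonMangoldt n) / 2 =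
      ∑ n ∈ Ioc ⌊a⌋₊ ⌊b⌋₊, ArithmeticFunction.vonMangoldt n * (1 / 2) := by
        rw [← sum_mul]; ring
    _ ≤ ∑ n ∈ Ioc ⌊a⌋₊ ⌊b⌋₊, ArithmeticFunction.vonMangoldt n * kt m D (n + h) := by
        apply sum_le_sum
        intro n hn
        rw [mem_Ioc] at hn
        apply mul_le_mul_of_nonneg_left _ ArithmeticFunction.vonMangoldt_nonneg
        rw [kt_eq m D _ hD]
        apply le_max_of_le_left
        have h3 : a < n := (Nat.floor_lt h1).1 hn.1
        have h4 : (n : ℝ) ≤ b := (Nat.le_floor_iff (h1.trans hab)).1 hn.2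
        have h5 : |(n : ℝ) + h - m| ≤ D / 2 := by
          rw [abs_le]
          constructor <;> linarith
        have h6 : |(n : ℝ) + h - m| / D ≤ 1 / 2 := by
          rw [div_le_iff₀ hD]
          linarith
        linarith
    _ ≤ _ := by
        apply sum_le_sum_of_subset_of_nonneg hsub
        intro n _ _
        exact mul_nonneg ArithmeticFunction.vonMangoldt_nonneg (kt_nonneg m D _ hD)

theorem Mh_diff (M : ℕ) (m D h h' : ℝ) (hD : 0 < D) :
    |Mh M m D h - Mh M m D h'| ≤ |h - h'| / D * Chebyshev.psi M := by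
  unfold Mh
  rw [← sum_sub_distrib, ← psi_Icc, mul_sum]
  refine (abs_sum_le_sum_abs _ _).trans (sum_le_sum fun n _ => ?_)
  rw [← mul_sub, abs_mul, abs_of_nonneg ArithmeticFunction.vonMangoldt_nonneg, mul_comm]
  apply mul_le_mul_of_nonneg_right _ ArithmeticFunction.vonMangoldt_nonneg
  have := kt_lip m D (n + h) (n + h') hD
  rwa [add_sub_add_left_eq_sub] at this

theorem TT_sum (Q : ℕ) (G : Finset ℕ) (hG : ∀ q ∈ G, q.Prime ∧ Q < q ∧ q ≤ 2 * Q) (X Y B : ℝ)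
    (hY : 1 ≤ Y) (hYX : Y ≤ X)
    (hB : ∀ y : ℝ, 1 ≤ y → y ≤ X → ∑ f ∈ Icc 2 (2 * Q), ∑ ψ ∈ Prim f, ‖psiLog y f ψ‖ ≤ B) :
    ∑ q ∈ G, TT q Y ≤ Real.sqrt (2 * Q) * (2 * X * B) + G.card * (2 * Q * (X * Real.log X)) := by
  classical
  have hX : 1 ≤ X := hY.trans hYX
  have hB0 : 0 ≤ B := le_trans (sum_nonneg fun f _ => sum_nonneg fun ψ _ => norm_nonneg _)
    (hB 1 le_rfl hX)
  unfold TT
  rw [sum_add_distrib]
  apply add_le_add
  · calc ∑ q ∈ G, Real.sqrt q * ∑ χ ∈ Prim q, ‖CX Y q χ‖ ≤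
        ∑ q ∈ G, Real.sqrt (2 * Q) * ∑ χ ∈ Prim q, ‖CX Y q χ‖ := by
          apply sum_le_sum
          intro q hq
          have hq2 : (q : ℝ) ≤ 2 * Q := by exact_mod_cast (hG q hq).2.2
          apply mul_le_mul_of_nonneg_right (Real.sqrt_le_sqrt hq2)
          exact sum_nonneg fun _ _ => norm_nonneg _
      _ = Real.sqrt (2 * Q) * ∑ q ∈ G, ∑ χ ∈ Prim q, ‖CX Y q χ‖ := by rw [mul_sum]
      _ ≤ _ := by
          apply mul_le_mul_of_nonneg_left _ (Real.sqrt_nonneg _)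
          have hs : G ⊆ Icc 2 (2 * Q) := by
            intro q hq
            rw [mem_Icc]
            exact ⟨(hG q hq).1.two_le, (hG q hq).2.2⟩
          calc ∑ q ∈ G, ∑ χ ∈ Prim q, ‖CX Y q χ‖ ≤
              ∑ f ∈ Icc 2 (2 * Q), ∑ χ ∈ Prim f, ‖CX Y f χ‖ :=
                sum_le_sum_of_subset_of_nonneg hs fun _ _ _ =>
                  sum_nonneg fun _ _ => norm_nonneg _
            _ = ∑ i ∈ (Icc 2 (2 * Q)).sigma (fun f => Prim f), ‖CX Y i.1 i.2‖ := by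
                rw [sum_sigma]
            _ ≤ 2 * Y * B := by
                apply CX_sum (ι := Σ f : ℕ, DirichletCharacter ℂ f) _ (fun i => i.1)
                  (fun i => i.2) Y B hY
                intro y hy1 hy2
                rw [sum_sigma]
                exact hB y hy1 (hy2.trans hYX)
            _ ≤ _ := by gcongr
  · rw [← nsmul_eq_mul, ← sum_const]
    apply sum_le_sum
    intro q hq
    have hq2 : (q : ℝ) ≤ 2 * Q := by exact_mod_cast (hG q hq).2.2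
    have h1 : Real.log Y ≤ Real.log X := Real.log_le_log (by linarith) hYX
    have h2 : 0 ≤ Real.log Y := Real.log_nonneg hY
    have h3 : Y * Real.log Y ≤ X * Real.log X := by
      apply mul_le_mul hYX h1 h2 (by linarith)
    apply mul_le_mul hq2 h3 (by positivity) (by positivity)

/-- the sum of the inner products -/
theorem S_lower (M : ℕ) (H X κ E : ℝ) (hX : 0 < X) (hH : 0 < H) (hκ : 0 ≤ κ)
    (Q : ℕ) (G : Finset ℕ) (hG : ∀ q ∈ G, q.Prime ∧ Q < q ∧ q ≤ 2 * Q)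
    (h1 : 1 ≤ X / 4 - H / 2) (h2 : 3 * X / 4 + H / 2 ≤ M) (h3 : 3 * X / 4 + H / 2 ≤ X)
    (hsin : ∀ q ∈ G, 2 * κ ≤ |Real.sin (Real.pi * (H / q))|)
    (hM1 : X / 16 ≤ Mh M (X / 2) (X / 4) (H / 2))
    (hMd : |Mh M (X / 2) (X / 4) (H / 2) - Mh M (X / 2) (X / 4) (-(H / 2))| ≤ κ * X / 8)
    (hψ : Chebyshev.psi M + H ≤ 4 * X)
    (hE : ∀ Y : ℝ, 1 ≤ Y → Y ≤ X → ∑ q ∈ G, TT q Y ≤ E) :
    G.card * (κ * X / 52) - 32 * E / (3 * X) - G.card * (16 * (Q : ℝ) ^ 2) ≤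
      ∑ q ∈ G, ‖II M H (X / 2) (X / 4) q‖ := by
  have hpi := Real.pi_gt_three
  have hpi2 : Real.pi < 3.15 := Real.pi_lt_d2
  have hD : (0 : ℝ) < X / 4 := by linarith
  set M1 := Mh M (X / 2) (X / 4) (H / 2) with hM1d
  set M2 := Mh M (X / 2) (X / 4) (-(H / 2)) with hM2d
  have hmain : κ * X / 8 ≤ 2 * (2 * κ) * M1 - |M1 - M2| := by nlinarith
  have hone : ∀ q ∈ G, κ * X / 52 -
      ((TT q (X / 2 + X / 4 - H / 2) + 2 * TT q (X / 2 - H / 2) + TT q (X / 2 - X / 4 - H / 2)) +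
       (TT q (X / 2 + X / 4 + H / 2) + 2 * TT q (X / 2 + H / 2) + TT q (X / 2 - X / 4 + H / 2))) *
       (4 / (3 * X)) - 16 * (Q : ℝ) ^ 2 ≤ ‖II M H (X / 2) (X / 4) q‖ := by
    intro q hq
    obtain ⟨hqp, hq1, hq2⟩ := hG q hq
    have hlow := II_lower M H (X / 2) (X / 4) (2 * κ) hH hD hqp (by linarith) (by linarith)
      (by linarith) (hsin q hq) (by rw [← hM1d, ← hM2d]; exact le_trans (by positivity) hmain)
    rw [← hM1d, ← hM2d] at hlow
    refine le_trans ?_ hlow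
    have a1 : κ * X / 52 ≤ (2 * (2 * κ) * M1 - |M1 - M2|) / (2 * Real.pi) := by
      rw [le_div_iff₀ (by positivity)]
      have : 0 ≤ κ * X := by positivity
      nlinarith
    have hTT0 : ∀ Y : ℝ, 1 ≤ Y → 0 ≤ TT q Y := by
      intro Y hY
      unfold TT
      have := Real.log_nonneg hY
      have h0 : 0 ≤ ∑ χ ∈ Prim q, ‖CX Y q χ‖ := sum_nonneg fun _ _ => norm_nonneg _
      positivity
    have a2 : ((TT q (X / 2 + X / 4 - H / 2) + 2 * TT q (X / 2 - H / 2) +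
        TT q (X / 2 - X / 4 - H / 2)) / (X / 4) +
       (TT q (X / 2 + X / 4 + H / 2) + 2 * TT q (X / 2 + H / 2) +
        TT q (X / 2 - X / 4 + H / 2)) / (X / 4)) / Real.pi ≤
        ((TT q (X / 2 + X / 4 - H / 2) + 2 * TT q (X / 2 - H / 2) + TT q (X / 2 - X / 4 - H / 2)) +
       (TT q (X / 2 + X / 4 + H / 2) + 2 * TT q (X / 2 + H / 2) + TT q (X / 2 - X / 4 + H / 2))) *
       (4 / (3 * X)) := by
      have b1 := hTT0 (X / 2 + X / 4 - H / 2) (by linarith)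
      have b2 := hTT0 (X / 2 - H / 2) (by linarith)
      have b3 := hTT0 (X / 2 - X / 4 - H / 2) (by linarith)
      have b4 := hTT0 (X / 2 + X / 4 + H / 2) (by linarith)
      have b5 := hTT0 (X / 2 + H / 2) (by linarith)
      have b6 := hTT0 (X / 2 - X / 4 + H / 2) (by linarith)
      set T := (TT q (X / 2 + X / 4 - H / 2) + 2 * TT q (X / 2 - H / 2) +
        TT q (X / 2 - X / 4 - H / 2))
      set T' := (TT q (X / 2 + X / 4 + H / 2) + 2 * TT q (X / 2 + H / 2) +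
        TT q (X / 2 - X / 4 + H / 2))
      have hT : 0 ≤ T := by positivity
      have hT' : 0 ≤ T' := by positivity
      have e1 : (T / (X / 4) + T' / (X / 4)) / Real.pi = (T + T') * (4 / X) / Real.pi := by
        field_simp
      have e2 : (T + T') * (4 / (3 * X)) = (T + T') * (4 / X) / 3 := by field_simp
      rw [e1, e2]
      apply div_le_div_of_nonneg_left (by positivity) (by norm_num) hpi.le
    have a3 : ((∑ n ∈ Icc 1 M, ArithmeticFunction.vonMangoldt n) + H) *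
        ((q : ℝ) ^ 2 / (4 * (X / 4))) ≤ 16 * (Q : ℝ) ^ 2 := by
      rw [psi_Icc]
      have hq2' : (q : ℝ) ≤ 2 * Q := by exact_mod_cast hq2
      calc (Chebyshev.psi M + H) * ((q : ℝ) ^ 2 / (4 * (X / 4))) ≤
          (4 * X) * ((2 * Q : ℝ) ^ 2 / (4 * (X / 4))) := by gcongr
        _ = _ := by field_simp; ring
    linarith
  have hsum := sum_le_sum hone
  refine le_trans ?_ hsum
  simp only [sum_sub_distrib, ← sum_mul, sum_add_distrib, ← mul_sum, sum_const, nsmul_eq_mul]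
  have b1 := hE (X / 2 + X / 4 - H / 2) (by linarith) (by linarith)
  have b2 := hE (X / 2 - H / 2) (by linarith) (by linarith)
  have b3 := hE (X / 2 - X / 4 - H / 2) (by linarith) (by linarith)
  have b4 := hE (X / 2 + X / 4 + H / 2) (by linarith) (by linarith)
  have b5 := hE (X / 2 + H / 2) (by linarith) (by linarith)
  have b6 := hE (X / 2 - X / 4 + H / 2) (by linarith) (by linarith)
  have hc : 0 ≤ 4 / (3 * X) := by positivity
  have hfin : (∑ q ∈ G, TT q (X / 2 + X / 4 - H / 2) + 2 * ∑ q ∈ G, TT q (X / 2 - H / 2) +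
      ∑ q ∈ G, TT q (X / 2 - X / 4 - H / 2) + (∑ q ∈ G, TT q (X / 2 + X / 4 + H / 2) +
      2 * ∑ q ∈ G, TT q (X / 2 + H / 2) + ∑ q ∈ G, TT q (X / 2 - X / 4 + H / 2))) *
      (4 / (3 * X)) ≤ (8 * E) * (4 / (3 * X)) := by
    apply mul_le_mul_of_nonneg_right _ hc
    linarith
  have e3 : (8 * E) * (4 / (3 * X)) = 32 * E / (3 * X) := by ring
  rw [e3] at hfin
  linarith

end Pool.Agent.D0H44.EL
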