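import Mathlib
import Pool.Agent.D0H44.EL.Bds

/-! The mean square of `ψ(x; H) - H` for all lengths: the main estimate. -/

open Finset MeasureTheory

namespace Pool.Agent.D0H44.EL

open H343 (ex)
open H321VP (DD)
open Pool.Agent.H398R2.BV Pool.Agent.H410R2

/-- the sums over the characters -/
theorem B_bound (a Q U : ℕ) (ha : 40 ≤ a) (t L X y : ℝ) (hX : X = t ^ (6 * a + 144))
    (hL1 : 1 ≤ L) (hLX : L = 1 + Real.log X) (hLt : 10 ^ 6 * L ^ 6 ≤ t) (hQ1 : 1 ≤ Q)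
    (hQ : (Q : ℝ) ≤ t ^ (2 * a)) (hU1 : t ^ (2 * a + 48) ≤ U) (hU2 : (U : ℝ) ≤ 2 * t ^ (2 * a + 48))
    (hy1 : 1 ≤ y) (hyX : y ≤ X) :
    ∑ f ∈ Icc 2 (2 * Q), ∑ ψ ∈ Prim f, ‖psiLog y f ψ‖ ≤ t ^ (7 * a + 121) := by
  have ht6 : (10 : ℝ) ^ 6 ≤ t := by
    have : (1 : ℝ) ≤ L ^ 6 := one_le_pow₀ hL1
    linarith
  have ht1 : (1 : ℝ) ≤ t := by linarith
  have ht0 : 0 < t := by linarith
  have hQr : (1 : ℝ) ≤ Q := by exact_mod_cast hQ1
  have hX1 : 1 ≤ X := hy1.trans hyX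
  have hUr : (1 : ℝ) ≤ U := (one_le_pow₀ ht1).trans hU1
  have hU : 1 ≤ U := by exact_mod_cast hUr
  have h := eng y hy1 U (2 * Q) hU (by omega)
  refine h.trans ?_
  push_cast
  have hsq : Real.sqrt (2 * Q) ≤ 2 * t ^ a := by
    rw [Real.sqrt_le_left (by positivity)]
    have : (2 * t ^ a) ^ 2 = 4 * t ^ (2 * a) := by ring
    rw [this]
    nlinarith [pow_pos ht0 (2 * a)]
  have hsy : Real.sqrt y ≤ t ^ (3 * a + 72) := by
    rw [Real.sqrt_le_left (by positivity)]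
    have : (t ^ (3 * a + 72)) ^ 2 = t ^ (6 * a + 144) := by ring
    rw [this, ← hX]
    exact hyX
  have hsyU : Real.sqrt (y / U) ≤ t ^ (2 * a + 48) := by
    rw [Real.sqrt_le_left (by positivity), div_le_iff₀ (by linarith)]
    have h1 : (t ^ (2 * a + 48)) ^ 2 * t ^ (2 * a + 48) = t ^ (6 * a + 144) := by ring
    calc y ≤ t ^ (6 * a + 144) := by rw [← hX]; exact hyX
      _ = (t ^ (2 * a + 48)) ^ 2 * t ^ (2 * a + 48) := h1.symm
      _ ≤ _ := by gcongr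
  have hly : Real.log y ≤ L := by
    have := Real.log_le_log (by linarith) hyX
    linarith
  have hly1 : 1 + Real.log y ≤ L := by
    have := Real.log_le_log (by linarith) hyX
    linarith
  have hly0 : 0 ≤ Real.log y := Real.log_nonneg hy1
  have hQX : 2 * (Q : ℝ) ≤ X := by
    rw [hX]
    calc 2 * (Q : ℝ) ≤ t * t ^ (2 * a) := by
          apply mul_le_mul (by linarith) hQ (by positivity) ht0.le
      _ = t ^ (2 * a + 1) := by ring
      _ ≤ _ := pow_le_pow_right₀ ht1 (by omega)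
  have hlQ : 1 + Real.log (2 * Q) ≤ L := by
    have := Real.log_le_log (by linarith) hQX
    linarith
  have hlQ0 : 0 ≤ Real.log (2 * Q) := Real.log_nonneg (by linarith)
  have p1 : (2 * Q : ℝ) ^ 2 * (8 * U * (Real.sqrt (2 * Q) * (1 + Real.log (2 * Q))) *
      Real.log y ^ 2) ≤ (2 * t ^ (2 * a)) ^ 2 * (8 * (2 * t ^ (2 * a + 48)) *
        ((2 * t ^ a) * L) * L ^ 2) := by
    gcongr
  have p2 : 12 * (Real.sqrt y + 2 * Q * (2 * Real.sqrt (y / U) + U) + (2 * Q : ℝ) ^ 2) *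
      (Real.sqrt y * (1 + Real.log y) ^ 4) ≤
      12 * (t ^ (3 * a + 72) + 2 * t ^ (2 * a) * (2 * t ^ (2 * a + 48) + 2 * t ^ (2 * a + 48)) +
        (2 * t ^ (2 * a)) ^ 2) * (t ^ (3 * a + 72) * L ^ 4) := by
    gcongr
  have e1 : (2 * t ^ (2 * a)) ^ 2 * (8 * (2 * t ^ (2 * a + 48)) *
        ((2 * t ^ a) * L) * L ^ 2) = 128 * (t ^ (7 * a + 48) * L ^ 3) := by ring
  have e2 : 12 * (t ^ (3 * a + 72) + 2 * t ^ (2 * a) * (2 * t ^ (2 * a + 48) +
      2 * t ^ (2 * a + 48)) + (2 * t ^ (2 * a)) ^ 2) * (t ^ (3 * a + 72) * L ^ 4) =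
      12 * (t ^ (6 * a + 144) + 8 * t ^ (7 * a + 120) + 4 * t ^ (7 * a + 72)) * L ^ 4 := by ring
  have q1 : t ^ (7 * a + 48) * L ^ 3 ≤ t ^ (7 * a + 120) * L ^ 4 := by
    apply mul_le_mul (pow_le_pow_right₀ ht1 (by omega)) (pow_le_pow_right₀ hL1 (by omega))
      (by positivity) (by positivity)
  have q2 : t ^ (6 * a + 144) ≤ t ^ (7 * a + 120) := pow_le_pow_right₀ ht1 (by omega)
  have q3 : t ^ (7 * a + 72) ≤ t ^ (7 * a + 120) := pow_le_pow_right₀ ht1 (by omega)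
  have q4 : 12 * (t ^ (6 * a + 144) + 8 * t ^ (7 * a + 120) + 4 * t ^ (7 * a + 72)) * L ^ 4 ≤
      12 * (t ^ (7 * a + 120) + 8 * t ^ (7 * a + 120) + 4 * t ^ (7 * a + 120)) * L ^ 4 := by
    gcongr
  have q5 : 284 * L ^ 4 ≤ t := by
    have : L ^ 4 ≤ L ^ 6 := pow_le_pow_right₀ hL1 (by omega)
    have : 0 ≤ L ^ 6 := by positivity
    linarith
  calc _ ≤ 128 * (t ^ (7 * a + 48) * L ^ 3) + 12 * (t ^ (6 * a + 144) + 8 * t ^ (7 * a + 120) +
        4 * t ^ (7 * a + 72)) * L ^ 4 := by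
        rw [← e1, ← e2]
        exact add_le_add p1 p2
    _ ≤ 128 * (t ^ (7 * a + 120) * L ^ 4) + 12 * (t ^ (7 * a + 120) + 8 * t ^ (7 * a + 120) +
        4 * t ^ (7 * a + 120)) * L ^ 4 := by linarith
    _ = t ^ (7 * a + 120) * (284 * L ^ 4) := by ring
    _ ≤ t ^ (7 * a + 120) * t := by gcongr
    _ = _ := by ring

/-- counting the good primes -/
theorem good_card : ∃ Q₀ : ℕ, 1 ≤ Q₀ ∧ ∀ (Q : ℕ) (H X κ L : ℝ), Q₀ ≤ Q → 0 < κ →
    4 * (Q : ℝ) ≤ H → H ≤ X → 2 * X < (Q : ℝ) ^ 5 → 2 * (Q : ℝ) ≤ X → L = 1 + Real.log X →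
    128 * L * κ ≤ 1 → 32 * L ≤ Q →
    (Q : ℝ) / (4 * L) ≤ ((Ioc Q (2 * Q)).filter (fun q : ℕ => q.Prime ∧
      2 * κ ≤ |Real.sin (Real.pi * (H / q))|)).card := by
  obtain ⟨Q₀, hQ₀, h⟩ := primes_dyadic
  refine ⟨Q₀, hQ₀, fun Q H X κ L hQ hκ h1 h2 h3 h4 hL h5 h6 => ?_⟩
  have hQ1 : 1 ≤ Q := hQ₀.trans hQ
  have hQr : (1 : ℝ) ≤ Q := by exact_mod_cast hQ1
  have hlogX : Real.log (2 * Q) ≤ Real.log X := Real.log_le_log (by linarith) h4
  have hlog0 : 0 ≤ Real.log (2 * Q) := Real.log_nonneg (by linarith)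
  have hL1 : 1 ≤ L := by linarith
  have hκ1 : κ ≤ 1 / 2 := by nlinarith
  have hbad := bad_count Q H X κ hκ hκ1 h1 hQ1 h2 h3
  have hp := h Q hQ
  set P := (Ioc Q (2 * Q)).filter Nat.Prime with hP
  set Bd := (Ioc Q (2 * Q)).filter (fun q : ℕ => q.Prime ∧
      ¬ 2 * κ ≤ |Real.sin (Real.pi * (H / q))|) with hBd
  set G := (Ioc Q (2 * Q)).filter (fun q : ℕ => q.Prime ∧
      2 * κ ≤ |Real.sin (Real.pi * (H / q))|) with hG
  have hcard : P.card ≤ G.card + Bd.card := by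
    refine le_trans (card_le_card ?_) (card_union_le G Bd)
    intro q hq
    rw [hP, mem_filter] at hq
    rw [mem_union, hG, hBd, mem_filter, mem_filter]
    by_cases hc : 2 * κ ≤ |Real.sin (Real.pi * (H / q))|
    · exact Or.inl ⟨hq.1, hq.2, hc⟩
    · exact Or.inr ⟨hq.1, hq.2, hc⟩
  have hcard' : (P.card : ℝ) ≤ G.card + Bd.card := by exact_mod_cast hcard
  have hP1 : (Q : ℝ) / 2 ≤ P.card * L := by
    refine hp.trans ?_
    gcongr
    linarith
  have hP2 : (Q : ℝ) / (2 * L) ≤ P.card := by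
    rw [div_le_iff₀ (by linarith)]
    linarith
  have hB1 : (Bd.card : ℝ) ≤ Q / (4 * L) := by
    refine hbad.trans ?_
    rw [le_div_iff₀ (by linarith)]
    have g1 : 4 * (4 * κ * Q + 1) * (4 * L) = 1 / 2 * ((128 * L * κ) * Q) + 16 * L := by ring
    rw [g1]
    have g2 : (128 * L * κ) * Q ≤ 1 * Q := by gcongr
    linarith
  have e1 : (Q : ℝ) / (2 * L) = 2 * (Q / (4 * L)) := by
    field_simp
    norm_num
  rw [e1] at hP2
  linarith

/-- real arithmetic -/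
theorem final_arith (a : ℕ) (t g S J X : ℝ) (ha : 40 ≤ a) (ht : 10 ^ 6 ≤ t)
    (hX : X = t ^ (6 * a + 144)) (hg : t ^ (2 * a) ≤ g * t)
    (hS : g * (t ^ (6 * a + 138) / 52) - (43 * t ^ (8 * a + 121) + g * t ^ (2 * a + 1)) -
      g * (16 * t ^ (4 * a)) ≤ S) (hJ : S ^ 2 ≤ J * (g * (2 * X))) :
    t ^ (8 * a + 128) ≤ J := by
  have ht1 : (1 : ℝ) ≤ t := by linarith
  have ht0 : 0 < t := by linarith
  have hg0 : 0 < g := by
    by_contra hc
    push Not at hc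
    have : g * t ≤ 0 := mul_nonpos_of_nonpos_of_nonneg hc ht0.le
    have := pow_pos ht0 (2 * a)
    linarith
  have h1 : 43 * t ^ (8 * a + 121) ≤ g * (43 * t ^ (6 * a + 122)) := by
    calc 43 * t ^ (8 * a + 121) = 43 * t ^ (6 * a + 121) * t ^ (2 * a) := by ring
      _ ≤ 43 * t ^ (6 * a + 121) * (g * t) := by gcongr
      _ = _ := by ring
  have h2 : t ^ (2 * a + 1) ≤ t ^ (6 * a + 122) := pow_le_pow_right₀ ht1 (by omega)
  have h3 : t ^ (4 * a) ≤ t ^ (6 * a + 122) := pow_le_pow_right₀ ht1 (by omega)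
  have h4 : 10 ^ 6 * t ^ (6 * a + 122) ≤ t ^ (6 * a + 138) := by
    calc 10 ^ 6 * t ^ (6 * a + 122) ≤ t * t ^ (6 * a + 122) := by gcongr
      _ = t ^ (6 * a + 123) := by ring
      _ ≤ _ := pow_le_pow_right₀ ht1 (by omega)
  have h5 : 10 ^ 6 * t ^ (6 * a + 137) ≤ t ^ (6 * a + 138) := by
    calc 10 ^ 6 * t ^ (6 * a + 137) ≤ t * t ^ (6 * a + 137) := by gcongr
      _ = _ := by ring
  have hp := pow_pos ht0 (6 * a + 138)
  have hp2 := pow_pos ht0 (6 * a + 122)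
  have hp3 := pow_pos ht0 (6 * a + 137)
  have h6 : t ^ (6 * a + 137) ≤ t ^ (6 * a + 138) / 52 - 43 * t ^ (6 * a + 122) -
      t ^ (2 * a + 1) - 16 * t ^ (4 * a) := by linarith
  have h7 : g * t ^ (6 * a + 137) ≤ S := by
    have h8 := mul_le_mul_of_nonneg_left h6 hg0.le
    linarith
  have h8 : (g * t ^ (6 * a + 137)) ^ 2 ≤ J * (g * (2 * X)) := by
    refine le_trans ?_ hJ
    gcongr
  have e1 : (g * t ^ (6 * a + 137)) ^ 2 = (g * t * (t ^ (6 * a + 129) / 2)) * (g * (2 * X)) := by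
    rw [hX]; ring
  rw [e1] at h8
  have hX0 : 0 < X := by rw [hX]; positivity
  have h9 := le_of_mul_le_mul_right h8 (by positivity)
  refine le_trans ?_ h9
  calc t ^ (8 * a + 128) ≤ t ^ (8 * a + 128) * (t / 2) := by
        apply le_mul_of_one_le_right (by positivity)
        linarith
    _ = t ^ (2 * a) * (t ^ (6 * a + 129) / 2) := by ring
    _ ≤ _ := by gcongr

/-- **the main estimate** -/
theorem core : ∃ K : ℝ, 1 ≤ K ∧ ∀ (a : ℕ) (t L X H : ℝ), 40 ≤ a → X = t ^ (6 * a + 144) →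
    L = 1 + Real.log X → 10 ^ 6 * L ^ 6 ≤ t → K ≤ t → t ^ (2 * a + 1) ≤ H → H ≤ t ^ (6 * a + 48) →
    t ^ (8 * a + 128) ≤ ∫ x in Set.Icc (X / 4) (3 * X / 4), DD ⌈X⌉₊ H x ^ 2 := by
  obtain ⟨Q₀, hQ₀, hgood⟩ := good_card
  obtain ⟨C, hC0, hC⟩ := psi_bds (1 / 64) (by norm_num)
  refine ⟨max (2 * Q₀) (max (1000 * C) 1), le_max_of_le_right (le_max_right _ _), ?_⟩
  intro a t L X H ha hX hLX hLt hK hH1 hH2
  have hKQ : 2 * (Q₀ : ℝ) ≤ t := (le_max_left _ _).trans hK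
  have hKC : 1000 * C ≤ t := ((le_max_left _ _).trans (le_max_right _ _)).trans hK
  have ht1 : (1 : ℝ) ≤ t := ((le_max_right _ _).trans (le_max_right _ _)).trans hK
  have ht0 : 0 < t := by linarith
  have hX1 : 1 ≤ X := by rw [hX]; exact one_le_pow₀ ht1
  have hX0 : 0 < X := by linarith
  have hL1 : 1 ≤ L := by
    have := Real.log_nonneg hX1
    linarith
  have ht6 : (10 : ℝ) ^ 6 ≤ t := by
    have : (1 : ℝ) ≤ L ^ 6 := one_le_pow₀ hL1
    linarith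
  have hLt' : 10 ^ 6 * L ≤ t := by
    have : L ^ 1 ≤ L ^ 6 := pow_le_pow_right₀ hL1 (by omega)
    rw [pow_one] at this
    linarith
  have htX : t ≤ X := by
    rw [hX]
    calc t = t ^ 1 := (pow_one t).symm
      _ ≤ _ := pow_le_pow_right₀ ht1 (by omega)
  have hH0 : 0 < H := lt_of_lt_of_le (by positivity) hH1
  have hHX : 10 ^ 6 * H ≤ t ^ (6 * a + 138) := by
    calc 10 ^ 6 * H ≤ t * t ^ (6 * a + 48) := by gcongr
      _ = t ^ (6 * a + 49) := by ring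
      _ ≤ _ := pow_le_pow_right₀ ht1 (by omega)
  have hHX2 : 10 ^ 6 * H ≤ X := by
    refine hHX.trans ?_
    rw [hX]
    exact pow_le_pow_right₀ ht1 (by omega)
  -- the parameters
  set Q := ⌊t ^ (2 * a)⌋₊ with hQ
  have hQ1 : (Q : ℝ) ≤ t ^ (2 * a) := Nat.floor_le (by positivity)
  have ht2a : t ≤ t ^ (2 * a) := by
    calc t = t ^ 1 := (pow_one t).symm
      _ ≤ _ := pow_le_pow_right₀ ht1 (by omega)
  have hQ2 : t ^ (2 * a) ≤ 2 * Q := by
    have := Nat.lt_floor_add_one (t ^ (2 * a))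
    rw [← hQ] at this
    linarith
  have hQr : (1 : ℝ) ≤ Q := by linarith
  have hQ3 : 1 ≤ Q := by exact_mod_cast hQr
  have hQQ₀ : Q₀ ≤ Q := by
    have : (Q₀ : ℝ) ≤ Q := by linarith
    exact_mod_cast this
  set U := ⌈t ^ (2 * a + 48)⌉₊ with hU
  have hU1 : t ^ (2 * a + 48) ≤ U := Nat.le_ceil _
  have hU2 : (U : ℝ) ≤ 2 * t ^ (2 * a + 48) := by
    have h1 := Nat.ceil_lt_add_one (by positivity : 0 ≤ t ^ (2 * a + 48))
    rw [← hU] at h1
    have h2 : 1 ≤ t ^ (2 * a + 48) := one_le_pow₀ ht1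
    linarith
  set κ : ℝ := (t ^ 6)⁻¹ with hκ
  have hκ0 : 0 < κ := by positivity
  have hκX : κ * X = t ^ (6 * a + 138) := by
    rw [hκ, hX, show 6 * a + 144 = 6 + (6 * a + 138) by omega, pow_add, ← mul_assoc,
      inv_mul_cancel₀ (by positivity), one_mul]
  set G := (Ioc Q (2 * Q)).filter (fun q : ℕ => q.Prime ∧
      2 * κ ≤ |Real.sin (Real.pi * (H / q))|) with hG
  have hGm : ∀ q ∈ G, q.Prime ∧ Q < q ∧ q ≤ 2 * Q := by
    intro q hq
    rw [hG, mem_filter, mem_Ioc] at hq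
    exact ⟨hq.2.1, hq.1.1, hq.1.2⟩
  have hGs : ∀ q ∈ G, 2 * κ ≤ |Real.sin (Real.pi * (H / q))| := by
    intro q hq
    rw [hG, mem_filter] at hq
    exact hq.2.2
  have hGc : (G.card : ℝ) ≤ Q := by
    have h1 : G.card ≤ (Ioc Q (2 * Q)).card := card_le_card (filter_subset _ _)
    rw [Nat.card_Ioc] at h1
    have : G.card ≤ Q := by omega
    exact_mod_cast this
  have h4QH : 4 * (Q : ℝ) ≤ H := by
    refine le_trans ?_ hH1
    calc 4 * (Q : ℝ) ≤ t * t ^ (2 * a) := by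
          apply mul_le_mul (by linarith) hQ1 (by positivity) ht0.le
      _ = _ := by ring
  have hQ5 : 2 * X < (Q : ℝ) ^ 5 := by
    have h1 : t ^ (10 * a) ≤ 32 * (Q : ℝ) ^ 5 := by
      calc t ^ (10 * a) = (t ^ (2 * a)) ^ 5 := by ring
        _ ≤ (2 * Q) ^ 5 := by gcongr
        _ = _ := by ring
    have h2 : 100 * X ≤ t ^ (10 * a) := by
      rw [hX]
      calc 100 * t ^ (6 * a + 144) ≤ t * t ^ (6 * a + 144) := by gcongr; linarith
        _ = t ^ (6 * a + 145) := by ring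
        _ ≤ _ := pow_le_pow_right₀ ht1 (by omega)
    linarith
  have h2QX : 2 * (Q : ℝ) ≤ X := by linarith
  have hκL : 128 * L * κ ≤ 1 := by
    rw [hκ, ← div_eq_mul_inv, div_le_one (by positivity)]
    calc 128 * L ≤ t := by linarith
      _ = t ^ 1 := (pow_one t).symm
      _ ≤ _ := pow_le_pow_right₀ ht1 (by omega)
  have hg1 := hgood Q H X κ L hQQ₀ hκ0 h4QH (by linarith) hQ5 h2QX hLX hκL (by linarith)
  rw [← hG] at hg1
  have hg2 : t ^ (2 * a) ≤ G.card * t := by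
    rw [div_le_iff₀ (by positivity)] at hg1
    calc t ^ (2 * a) ≤ 2 * Q := hQ2
      _ ≤ 2 * (G.card * (4 * L)) := by linarith
      _ = G.card * (8 * L) := by ring
      _ ≤ _ := by gcongr; linarith
  -- the prime number theorem
  set M := ⌈X⌉₊ with hM
  have hM1 : X ≤ M := Nat.le_ceil _
  have hM2 : (M : ℝ) ≤ X + 1 := (Nat.ceil_lt_add_one hX0.le).le
  have hψM : Chebyshev.psi M ≤ 2 * X := by
    have := (hC M (by linarith)).2
    linarith
  have hMh1 : X / 16 ≤ Mh M (X / 2) (X / 4) (H / 2) := by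
    refine le_trans ?_ (Mh_lower M (X / 2) (X / 4) (H / 2) (by linarith) (by linarith)
      (by linarith))
    have g1 := (hC (X / 2 + X / 4 / 2 - H / 2) (by linarith)).1
    have g2 := (hC (X / 2 - X / 4 / 2 - H / 2) (by linarith)).2
    linarith
  have hMd : |Mh M (X / 2) (X / 4) (H / 2) - Mh M (X / 2) (X / 4) (-(H / 2))| ≤ κ * X / 8 := by
    refine (Mh_diff M (X / 2) (X / 4) (H / 2) (-(H / 2)) (by linarith)).trans ?_
    have e1 : H / 2 - -(H / 2) = H := by ring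
    rw [e1, abs_of_pos hH0, hκX]
    calc H / (X / 4) * Chebyshev.psi M ≤ H / (X / 4) * (2 * X) := by gcongr
      _ = 8 * H := by field_simp; norm_num
      _ ≤ _ := by linarith
  -- the sums over the characters
  set B := t ^ (7 * a + 121) with hB
  have hBb : ∀ y : ℝ, 1 ≤ y → y ≤ X → ∑ f ∈ Icc 2 (2 * Q), ∑ ψ ∈ Prim f, ‖psiLog y f ψ‖ ≤ B :=
    fun y hy1 hy2 => B_bound a Q U ha t L X y hX hL1 hLX hLt hQ3 hQ1 hU1 hU2 hy1 hy2
  set E := Real.sqrt (2 * Q) * (2 * X * B) + G.card * (2 * Q * (X * Real.log X)) with hE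
  have hEb : ∀ Y : ℝ, 1 ≤ Y → Y ≤ X → ∑ q ∈ G, TT q Y ≤ E :=
    fun Y hY1 hY2 => TT_sum Q G hGm X Y B hY1 hY2 hBb
  have hS := S_lower M H X κ E hX0 hH0 hκ0.le Q G hGm (by linarith) (by linarith) (by linarith)
    hGs hMh1 hMd (by linarith) hEb
  have hcs := dual_sum M H (X / 2) (X / 4) X (by linarith) (by linarith) (by linarith) G Q
    (fun q hq => (hGm q hq).2)
  have e2 : X / 2 - X / 4 = X / 4 := by ring
  have e3 : X / 2 + X / 4 = 3 * X / 4 := by ring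
  rw [e2, e3] at hcs
  set S := ∑ q ∈ G, ‖II M H (X / 2) (X / 4) q‖ with hSd
  set J := ∫ x in Set.Icc (X / 4) (3 * X / 4), DD M H x ^ 2 with hJ
  have hJ0 : 0 ≤ J := by
    rw [hJ]
    apply integral_nonneg
    intro x
    positivity
  apply final_arith a t G.card S J X ha ht6 hX hg2
  · refine le_trans ?_ hS
    rw [hκX]
    have hsq : Real.sqrt (2 * Q) ≤ 2 * t ^ a := by
      rw [Real.sqrt_le_left (by positivity)]
      have : (2 * t ^ a) ^ 2 = 4 * t ^ (2 * a) := by ring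
      rw [this]
      nlinarith [pow_pos ht0 (2 * a)]
    have k1 : 32 * E / (3 * X) ≤ 43 * t ^ (8 * a + 121) + G.card * t ^ (2 * a + 1) := by
      have e4 : 32 * E / (3 * X) = 64 / 3 * (Real.sqrt (2 * Q) * B) +
          64 / 3 * (G.card * (Q * Real.log X)) := by
        rw [hE]
        field_simp
        ring
      rw [e4]
      apply add_le_add
      · calc 64 / 3 * (Real.sqrt (2 * Q) * B) ≤ 64 / 3 * ((2 * t ^ a) * B) := by gcongr
          _ = 128 / 3 * t ^ (8 * a + 121) := by rw [hB]; ring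
          _ ≤ _ := by
            have := pow_pos ht0 (8 * a + 121)
            linarith
      · have hlX : Real.log X ≤ L := by linarith
        have hlX0 := Real.log_nonneg hX1
        calc 64 / 3 * (G.card * (Q * Real.log X)) ≤ 64 / 3 * (G.card * (t ^ (2 * a) * L)) := by
              gcongr
          _ = G.card * (t ^ (2 * a) * (64 / 3 * L)) := by ring
          _ ≤ G.card * (t ^ (2 * a) * t) := by gcongr; linarith
          _ = _ := by ring
    have k2 : (G.card : ℝ) * (16 * (Q : ℝ) ^ 2) ≤ G.card * (16 * t ^ (4 * a)) := by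
      have : (Q : ℝ) ^ 2 ≤ t ^ (4 * a) := by
        calc (Q : ℝ) ^ 2 ≤ (t ^ (2 * a)) ^ 2 := by gcongr
          _ = _ := by ring
      gcongr
    linarith
  · refine hcs.trans ?_
    apply mul_le_mul_of_nonneg_left _ hJ0
    apply mul_le_mul_of_nonneg_left _ (by positivity)
    have k3 : (G.card : ℝ) * (4 * (Q : ℝ) ^ 2) ≤ X := by
      calc (G.card : ℝ) * (4 * (Q : ℝ) ^ 2) ≤ Q * (4 * (Q : ℝ) ^ 2) := by gcongr
        _ = 4 * (Q : ℝ) ^ 3 := by ring
        _ ≤ 4 * (t ^ (2 * a)) ^ 3 := by gcongr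
        _ ≤ t * (t ^ (2 * a)) ^ 3 := by gcongr; linarith
        _ = t ^ (6 * a + 1) := by ring
        _ ≤ X := by rw [hX]; exact pow_le_pow_right₀ ht1 (by omega)
    linarith

end Pool.Agent.D0H44.EL
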